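import Mathlib

/-!
# Exponential moments of counts on `(Fin g) ^ K`
-/

namespace Pool.Agent.SetIntOneSided

open Finset

/-- Sum of a product of one-coordinate functions. -/
theorem sum_prod {K : Type*} [Fintype K] [DecidableEq K] {g : ℕ} (φ : K → Fin g → ℝ) :
    ∑ ω : K → Fin g, ∏ k, φ k (ω k) = ∏ k, ∑ a, φ k a := by
  rw [prod_univ_sum, Fintype.piFinset_univ]

theorem moment {K : Type*} [Fintype K] [DecidableEq K] {g : ℕ} (hg : 0 < g)
    (G : K → Finset (Fin g)) (y : ℝ) (hy : 1 ≤ y) :
    ∑ ω : K → Fin g, y ^ (univ.filter (fun k => ω k ∈ G k)).card ≤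
      (g : ℝ) ^ (Fintype.card K) * Real.exp ((y - 1) * (∑ k, ((G k).card : ℝ)) / g) := by
  have hg' : (0 : ℝ) < g := by exact_mod_cast hg
  have h1 : ∀ ω : K → Fin g, y ^ (univ.filter (fun k => ω k ∈ G k)).card =
      ∏ k, (if ω k ∈ G k then y else 1) := by
    intro ω
    rw [prod_ite, prod_const, prod_const_one, mul_one]
  simp_rw [h1]
  rw [sum_prod (fun k a => if a ∈ G k then y else 1)]
  have h2 : ∀ k, ∑ a : Fin g, (if a ∈ G k then y else 1) = g + (y - 1) * (G k).card := by
    intro k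
    have : ∀ a : Fin g, (if a ∈ G k then y else 1) = 1 + (if a ∈ G k then (y - 1) else 0) := by
      intro a
      split_ifs <;> ring
    simp_rw [this]
    rw [sum_add_distrib, sum_const, card_univ, Fintype.card_fin, sum_ite_mem, univ_inter, sum_const,
      nsmul_eq_mul, nsmul_eq_mul]
    ring
  simp_rw [h2]
  calc ∏ k, ((g : ℝ) + (y - 1) * (G k).card)
      ≤ ∏ k, ((g : ℝ) * Real.exp ((y - 1) * (G k).card / g)) := by
        refine prod_le_prod (fun k _ => ?_) (fun k _ => ?_)
        · have : 0 ≤ (y - 1) * (G k).card := mul_nonneg (by linarith) (by positivity)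
          linarith
        · have h3 := Real.add_one_le_exp ((y - 1) * (G k).card / g)
          calc (g : ℝ) + (y - 1) * (G k).card = g * ((y - 1) * (G k).card / g + 1) := by
                field_simp
                ring
            _ ≤ _ := mul_le_mul_of_nonneg_left h3 hg'.le
    _ = (g : ℝ) ^ (Fintype.card K) * Real.exp ((y - 1) * (∑ k, ((G k).card : ℝ)) / g) := by
        rw [prod_mul_distrib, prod_const, card_univ, ← Real.exp_sum]
        congr 2
        rw [mul_sum, sum_div]

/-- The moment of base `e`. -/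
theorem moment_exp {K : Type*} [Fintype K] [DecidableEq K] {g : ℕ} (hg : 0 < g)
    (G : K → Finset (Fin g)) :
    ∑ ω : K → Fin g, Real.exp ((univ.filter (fun k => ω k ∈ G k)).card : ℝ) ≤
      (g : ℝ) ^ (Fintype.card K) * Real.exp (2 * (∑ k, ((G k).card : ℝ)) / g) := by
  have hg' : (0 : ℝ) < g := by exact_mod_cast hg
  have h0 := Real.exp_one_lt_d9
  have h1 := moment hg G (Real.exp 1) (by
    have := Real.add_one_le_exp (1 : ℝ)
    linarith)
  simp_rw [← Real.exp_nat_mul, mul_one] at h1
  refine le_trans h1 ?_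
  apply mul_le_mul_of_nonneg_left _ (by positivity)
  apply Real.exp_le_exp.2
  apply div_le_div_of_nonneg_right _ hg'.le
  apply mul_le_mul_of_nonneg_right _ (by positivity)
  linarith

/-- The average over one coordinate. -/
theorem marginal {K : Type*} [Fintype K] [DecidableEq K] {g : ℕ} (hg : 0 < g) (k : K)
    (φ : Fin g → ℝ) :
    ∑ ω : K → Fin g, φ (ω k) = (g : ℝ) ^ (Fintype.card K) * ((∑ a, φ a) / g) := by
  have hg' : (0 : ℝ) < g := by exact_mod_cast hg
  have h1 : ∀ ω : K → Fin g, φ (ω k) = ∏ k', (if k' = k then φ (ω k') else 1) := by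
    intro ω
    rw [prod_ite_eq' univ k (fun k' => φ (ω k'))]
    simp
  simp_rw [h1]
  rw [sum_prod (fun k' a => if k' = k then φ a else 1)]
  have h2 : ∀ k', ∑ a : Fin g, (if k' = k then φ a else 1) =
      if k' = k then ∑ a, φ a else (g : ℝ) := by
    intro k'
    split_ifs
    · rfl
    · simp
  simp_rw [h2]
  rw [← mul_prod_erase univ _ (mem_univ k)]
  have h3 : ∏ x ∈ univ.erase k, (if x = k then ∑ a, φ a else (g : ℝ)) =
      (g : ℝ) ^ (Fintype.card K - 1) := by
    rw [prod_congr rfl (g := fun _ => (g : ℝ)) (fun x hx => by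
      rw [if_neg (ne_of_mem_erase hx)]), prod_const, card_erase_of_mem (mem_univ k), card_univ]
  rw [h3, if_pos rfl]
  have hK : 0 < Fintype.card K := Fintype.card_pos_iff.2 ⟨k⟩
  obtain ⟨n, hn⟩ : ∃ n, Fintype.card K = n + 1 := ⟨Fintype.card K - 1, by omega⟩
  rw [hn, Nat.add_sub_cancel, pow_succ]
  field_simp

/-- Tail bound in counting form. -/
theorem count_tail {K : Type*} [Fintype K] [DecidableEq K] {g : ℕ} (hg : 0 < g)
    (G : K → Finset (Fin g)) (q : ℝ) :
    ((univ.filter (fun ω : K → Fin g => q ≤ ((univ.filter (fun k => ω k ∈ G k)).card : ℝ))).card : ℝ)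
      ≤ (g : ℝ) ^ (Fintype.card K) * Real.exp (2 * (∑ k, ((G k).card : ℝ)) / g - q) := by
  have h1 := moment_exp hg G
  set W := univ.filter (fun ω : K → Fin g => q ≤ ((univ.filter (fun k => ω k ∈ G k)).card : ℝ))
    with hW
  have h2 : (W.card : ℝ) * Real.exp q ≤
      ∑ ω : K → Fin g, Real.exp ((univ.filter (fun k => ω k ∈ G k)).card : ℝ) := by
    calc (W.card : ℝ) * Real.exp q = ∑ _ω ∈ W, Real.exp q := by rw [sum_const, nsmul_eq_mul]
      _ ≤ ∑ ω ∈ W, Real.exp ((univ.filter (fun k => ω k ∈ G k)).card : ℝ) := by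
          refine sum_le_sum (fun ω hω => ?_)
          exact Real.exp_le_exp.2 (mem_filter.1 hω).2
      _ ≤ _ := sum_le_sum_of_subset_of_nonneg (subset_univ _) (fun _ _ _ => (Real.exp_pos _).le)
  have h3 : Real.exp q * Real.exp (-q) = 1 := by
    rw [← Real.exp_add]
    simp
  calc (W.card : ℝ) = (W.card : ℝ) * Real.exp q * Real.exp (-q) := by rw [mul_assoc, h3, mul_one]
    _ ≤ (g : ℝ) ^ (Fintype.card K) * Real.exp (2 * (∑ k, ((G k).card : ℝ)) / g) *
          Real.exp (-q) :=
        mul_le_mul_of_nonneg_right (le_trans h2 h1) (Real.exp_pos _).le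
    _ = _ := by
        rw [mul_assoc, ← Real.exp_add, sub_eq_add_neg]

end Pool.Agent.SetIntOneSided
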