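import Pool.Agent.SetIntOneSided.Defs
import Pool.Agent.SetIntOneSided.Moments

/-!
# The standard structure belongs to the model
-/

namespace Pool.Agent.SetIntOneSided

open Finset

/-- The element number `t` of `X`. -/
noncomputable def nth (X : Finset ℕ) (t : ℕ) : ℕ := X.toList.getD t 0

theorem exists_nth {X : Finset ℕ} {x : ℕ} (hx : x ∈ X) : ∃ t < X.card, nth X t = x := by
  rw [← mem_toList] at hx
  obtain ⟨t, ht, h⟩ := List.mem_iff_getElem.1 hx
  refine ⟨t, by rwa [length_toList] at ht, ?_⟩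
  unfold nth
  rw [List.getD_eq_getElem _ _ ht, h]

/-- Triples (heavy set, heavy set, number of an element of the intersection). -/
def Zt (N T : ℕ) {m : ℕ} (F : Fin m → Finset ℕ) : Finset (Fin m × Fin m × Fin N) :=
  univ.filter (fun y => (T < (F y.1).card ∧ T < (F y.2.1).card) ∧
    (y.2.2 : ℕ) < (F y.1 ∩ F y.2.1).card)

theorem card_Zt {N T m : ℕ} (hT : 1 ≤ T) (F : Fin m → Finset ℕ) (hF : IsFamily N F) :
    (Zt N T F).card ≤ N ^ 2 / T := by
  set Hv : Finset (Fin m) := univ.filter (fun i => T < (F i).card) with hHv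
  have h1 : Hv.card * T ≤ N := by
    calc Hv.card * T = ∑ _i ∈ Hv, T := by rw [sum_const, smul_eq_mul]
      _ ≤ ∑ i ∈ Hv, (F i).card := sum_le_sum (fun i hi => (mem_filter.1 hi).2.le)
      _ ≤ ∑ i, (F i).card := sum_le_sum_of_subset (subset_univ _)
      _ = N := hF.2
  have h2 : (Zt N T F).card ≤ ∑ i : Fin m, ∑ j ∈ Hv, (F i).card := by
    have hsub : Zt N T F ⊆ (univ : Finset (Fin m)).biUnion (fun i => Hv.biUnion (fun j =>
        (univ.filter (fun t : Fin N => (t : ℕ) < (F i ∩ F j).card)).image (fun t => (i, j, t)))) := by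
      intro y hy
      obtain ⟨_, ⟨_, h3⟩, h4⟩ := mem_filter.1 hy
      rw [mem_biUnion]
      refine ⟨y.1, mem_univ _, ?_⟩
      rw [mem_biUnion]
      refine ⟨y.2.1, mem_filter.2 ⟨mem_univ _, h3⟩, ?_⟩
      rw [mem_image]
      exact ⟨y.2.2, mem_filter.2 ⟨mem_univ _, h4⟩, rfl⟩
    refine le_trans (card_le_card hsub) (le_trans card_biUnion_le ?_)
    refine sum_le_sum (fun i _ => le_trans card_biUnion_le ?_)
    refine sum_le_sum (fun j _ => le_trans card_image_le ?_)
    calc (univ.filter (fun t : Fin N => (t : ℕ) < (F i ∩ F j).card)).card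
        ≤ (range (F i ∩ F j).card).card := by
          apply card_le_card_of_injOn Fin.val
          · intro t ht
            simpa using ht
          · exact Fin.val_injective.injOn
      _ = (F i ∩ F j).card := card_range _
      _ ≤ (F i).card := card_le_card inter_subset_left
  rw [Nat.le_div_iff_mul_le (by omega)]
  calc (Zt N T F).card * T ≤ (∑ i : Fin m, ∑ j ∈ Hv, (F i).card) * T :=
        Nat.mul_le_mul_right _ h2
    _ = (∑ i : Fin m, (F i).card) * (Hv.card * T) := by
        simp_rw [sum_const, smul_eq_mul]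
        rw [← mul_sum]
        ring
    _ ≤ N * N := Nat.mul_le_mul hF.2.le h1
    _ = N ^ 2 := by ring

/-- Functions with an overfull value on `Z`. -/
def Fail {Y : Type} [Fintype Y] [DecidableEq Y] (R B : ℕ) (Z : Finset Y) : Finset (Y → Fin R) :=
  univ.filter (fun f => ∃ r, B < (Z.filter (fun y => f y = r)).card)

theorem card_Fail {Y : Type} [Fintype Y] [DecidableEq Y] {R B : ℕ} (hR : 0 < R) (Z : Finset Y)
    (hZ : Z.card ≤ R) :
    ((Fail R B Z).card : ℝ) ≤ (R : ℝ) ^ (Fintype.card Y) * (R * Real.exp (2 - (B + 1))) := by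
  have hR' : (0 : ℝ) < R := by exact_mod_cast hR
  have hsub : Fail R B Z ⊆ (univ : Finset (Fin R)).biUnion (fun r =>
      univ.filter (fun f : Y → Fin R => ((B : ℝ) + 1) ≤
        ((univ.filter (fun y => f y ∈ univ.filter (fun a : Fin R => y ∈ Z ∧ a = r))).card : ℝ))) := by
    intro f hf
    obtain ⟨_, r, hr⟩ := mem_filter.1 hf
    rw [mem_biUnion]
    refine ⟨r, mem_univ _, mem_filter.2 ⟨mem_univ _, ?_⟩⟩
    have h1 : univ.filter (fun y => f y ∈ univ.filter (fun a : Fin R => y ∈ Z ∧ a = r)) =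
        Z.filter (fun y => f y = r) := by
      ext y
      simp
    rw [h1]
    exact_mod_cast hr
  have h2 : ∀ r : Fin R, ((univ.filter (fun f : Y → Fin R => ((B : ℝ) + 1) ≤
        ((univ.filter (fun y => f y ∈ univ.filter (fun a : Fin R => y ∈ Z ∧ a = r))).card : ℝ))).card
          : ℝ) ≤ (R : ℝ) ^ (Fintype.card Y) * Real.exp (2 - (B + 1)) := by
    intro r
    have h := count_tail hR (fun y : Y => univ.filter (fun a : Fin R => y ∈ Z ∧ a = r))
      ((B : ℝ) + 1)
    refine le_trans h ?_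
    apply mul_le_mul_of_nonneg_left _ (by positivity)
    apply Real.exp_le_exp.2
    have h3 : ∑ y : Y, ((univ.filter (fun a : Fin R => y ∈ Z ∧ a = r)).card : ℝ) = Z.card := by
      rw [← Nat.cast_sum]
      congr 1
      have h4 : ∀ y : Y, (univ.filter (fun a : Fin R => y ∈ Z ∧ a = r)).card =
          if y ∈ Z then 1 else 0 := by
        intro y
        by_cases h : y ∈ Z
        · simp [h, filter_eq']
        · simp [h]
      simp_rw [h4]
      simp
    rw [h3]
    have h5 : 2 * (Z.card : ℝ) / R ≤ 2 := by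
      rw [div_le_iff₀ hR']
      have : (Z.card : ℝ) ≤ R := by exact_mod_cast hZ
      linarith
    linarith
  calc ((Fail R B Z).card : ℝ) ≤ ∑ r : Fin R, ((univ.filter (fun f : Y → Fin R => ((B : ℝ) + 1) ≤
        ((univ.filter (fun y => f y ∈ univ.filter (fun a : Fin R => y ∈ Z ∧ a = r))).card
          : ℝ))).card : ℝ) := by
        rw [← Nat.cast_sum]
        exact Nat.cast_le.2 (le_trans (card_le_card hsub) card_biUnion_le)
    _ ≤ ∑ _r : Fin R, (R : ℝ) ^ (Fintype.card Y) * Real.exp (2 - (B + 1)) :=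
        sum_le_sum (fun r _ => h2 r)
    _ = _ := by
        rw [sum_const, card_univ, Fintype.card_fin, nsmul_eq_mul]
        ring

/-- The family coded by a set of incidences. -/
def dec {m N : ℕ} (A : Finset (Fin m × Fin N)) (i : Fin m) : Finset ℕ :=
  (univ.filter (fun x : Fin N => (i, x) ∈ A)).map Fin.valEmbedding

theorem exists_code {N m : ℕ} (F : Fin m → Finset ℕ) (hF : IsFamily N F) :
    ∃ A ∈ powersetCard N (univ : Finset (Fin m × Fin N)), dec A = F := by
  refine ⟨univ.filter (fun q => (q.2 : ℕ) ∈ F q.1), ?_, ?_⟩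
  · rw [mem_powersetCard]
    refine ⟨subset_univ _, ?_⟩
    rw [card_filter, Fintype.sum_prod_type]
    refine Eq.trans ?_ hF.2
    refine sum_congr rfl (fun i _ => ?_)
    simp only
    rw [← card_filter]
    refine card_nbij (fun (x : Fin N) => (x : ℕ)) ?_ ?_ ?_
    · intro x hx
      have hx' := mem_coe.1 hx
      exact mem_coe.2 (mem_filter.1 hx').2
    · intro x _ y _ h
      exact Fin.ext h
    · intro x hx
      have hx' := mem_coe.1 hx
      have hxN := mem_range.1 (hF.1 i hx')
      exact ⟨⟨x, hxN⟩, mem_coe.2 (mem_filter.2 ⟨mem_univ _, hx'⟩), rfl⟩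
  · funext i
    ext x
    unfold dec
    simp only [mem_map, mem_filter, mem_univ, true_and, Fin.valEmbedding_apply]
    constructor
    · rintro ⟨y, hy, rfl⟩
      exact hy
    · intro hx
      have hxN := mem_range.1 (hF.1 i hx)
      exact ⟨⟨x, hxN⟩, hx, rfl⟩

theorem isFamily_dec {N m : ℕ} {A : Finset (Fin m × Fin N)}
    (hA : A ∈ powersetCard N (univ : Finset (Fin m × Fin N))) : IsFamily N (dec A) := by
  constructor
  · intro i x hx
    unfold dec at hx
    rw [mem_map] at hx
    obtain ⟨y, _, rfl⟩ := hx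
    exact mem_range.2 y.isLt
  · unfold dec
    simp_rw [card_map, card_filter]
    rw [← Fintype.sum_prod_type' (f := fun (i : Fin m) (x : Fin N) => if (i, x) ∈ A then 1 else 0)]
    simp only [Prod.mk.eta, sum_ite_mem, univ_inter, sum_const, smul_eq_mul, mul_one]
    exact (mem_powersetCard.1 hA).2

/-- A small family of hash functions that is good for all families of sets. -/
theorem exists_hash {N T m : ℕ} (hN : 1 ≤ N) (hT : 1 ≤ T) (hm : m ≤ N) :
    ∃ h : Fin N → (Fin m × Fin m × Fin N) → Fin (N ^ 2 / T + 1),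
      ∀ F : Fin m → Finset ℕ, IsFamily N F →
        ∃ d, ∀ r, ((Zt N T F).filter (fun y => h d y = r)).card ≤ 6 * (Nat.log 2 N + 1) := by
  classical
  set L := Nat.log 2 N + 1 with hL
  set R := N ^ 2 / T + 1 with hR
  have hL1 : 1 ≤ L := by omega
  have hNL : N < 2 ^ L := Nat.lt_pow_succ_log_self (by norm_num) N
  have hR0 : 0 < R := Nat.succ_pos _
  let Y := Fin m × Fin m × Fin N
  set 𝒜 := powersetCard N (univ : Finset (Fin m × Fin N)) with h𝒜
  have he : (2 : ℝ) ≤ Real.exp 1 := by
    have := Real.add_one_le_exp (1 : ℝ)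
    linarith
  have h2L : ∀ k : ℕ, (2 : ℝ) ^ k ≤ Real.exp k := by
    intro k
    calc (2 : ℝ) ^ k ≤ Real.exp 1 ^ k := pow_le_pow_left₀ (by norm_num) he k
      _ = Real.exp k := by
          rw [← Real.exp_nat_mul]
          congr 1
          ring
  have hRe : (R : ℝ) ≤ Real.exp (2 * L) := by
    have h1 : R ≤ N ^ 2 + 1 := by
      have : N ^ 2 / T ≤ N ^ 2 := Nat.div_le_self _ _
      omega
    have h2 : N ^ 2 + 1 ≤ 2 ^ (2 * L) := by
      have h3 : (N + 1) ^ 2 ≤ (2 ^ L) ^ 2 := Nat.pow_le_pow_left hNL 2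
      have h4 : (2 ^ L) ^ 2 = 2 ^ (2 * L) := by
        rw [← pow_mul]
        ring_nf
      have h5 : N ^ 2 + 1 ≤ (N + 1) ^ 2 := by nlinarith
      omega
    have h6 : (R : ℝ) ≤ (2 : ℝ) ^ (2 * L) := by exact_mod_cast le_trans h1 h2
    refine le_trans h6 (le_trans (h2L _) (le_of_eq ?_))
    push_cast
    rfl
  -- one family
  have hone : ∀ A ∈ 𝒜, ((Fail (Y := Y) R (6 * L) (Zt N T (dec A))).card : ℝ) ≤
      (R : ℝ) ^ (Fintype.card Y) * Real.exp (-(3 * L)) := by
    intro A hA
    have h1 := card_Fail (Y := Y) (B := 6 * L) hR0 (Zt N T (dec A))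
      (le_trans (card_Zt hT _ (isFamily_dec hA)) (Nat.le_succ _))
    refine le_trans h1 ?_
    apply mul_le_mul_of_nonneg_left _ (by positivity)
    calc (R : ℝ) * Real.exp (2 - ((6 * L : ℕ) + 1))
        ≤ Real.exp (2 * L) * Real.exp (2 - ((6 * L : ℕ) + 1)) :=
          mul_le_mul_of_nonneg_right hRe (Real.exp_pos _).le
      _ = Real.exp (2 * L + (2 - ((6 * L : ℕ) + 1))) := by rw [Real.exp_add]
      _ ≤ Real.exp (-(3 * L)) := by
          apply Real.exp_le_exp.2
          have : (1 : ℝ) ≤ L := by exact_mod_cast hL1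
          push_cast
          linarith
  by_contra hcon
  push Not at hcon
  -- every `h` fails for some family
  have hsub : (univ : Finset (Fin N → Y → Fin R)) ⊆
      𝒜.biUnion (fun A => Fintype.piFinset (fun _ : Fin N => Fail (Y := Y) R (6 * L) (Zt N T (dec A)))) := by
    intro h _
    obtain ⟨F, hF, hd⟩ := hcon h
    obtain ⟨A, hA, rfl⟩ := exists_code F hF
    rw [mem_biUnion]
    refine ⟨A, hA, ?_⟩
    rw [Fintype.mem_piFinset]
    intro d
    unfold Fail
    exact mem_filter.2 ⟨mem_univ _, hd d⟩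
  have h1 : (((R ^ Fintype.card Y) ^ N : ℕ) : ℝ) ≤
      ∑ A ∈ 𝒜, ((Fail (Y := Y) R (6 * L) (Zt N T (dec A))).card : ℝ) ^ N := by
    have h2 : (R ^ Fintype.card Y) ^ N = (univ : Finset (Fin N → Y → Fin R)).card := by
      rw [card_univ, Fintype.card_fun, Fintype.card_fun, Fintype.card_fin, Fintype.card_fin]
    rw [h2]
    refine le_trans (Nat.cast_le.2 (le_trans (card_le_card hsub) card_biUnion_le)) ?_
    rw [Nat.cast_sum]
    refine le_of_eq (sum_congr rfl (fun A _ => ?_))
    rw [Fintype.card_piFinset_const]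
    push_cast
    simp
  have h3 : ∑ A ∈ 𝒜, ((Fail (Y := Y) R (6 * L) (Zt N T (dec A))).card : ℝ) ^ N ≤
      (((R ^ Fintype.card Y) ^ N : ℕ) : ℝ) * (𝒜.card * Real.exp (-(3 * L)) ^ N) := by
    calc ∑ A ∈ 𝒜, ((Fail (Y := Y) R (6 * L) (Zt N T (dec A))).card : ℝ) ^ N
        ≤ ∑ _A ∈ 𝒜, ((R : ℝ) ^ (Fintype.card Y) * Real.exp (-(3 * L))) ^ N :=
          sum_le_sum (fun A hA => pow_le_pow_left₀ (by positivity) (hone A hA) N)
      _ = _ := by
          rw [sum_const, nsmul_eq_mul, mul_pow]
          push_cast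
          ring
  have h4 : (𝒜.card : ℝ) ≤ Real.exp (2 * L) ^ N := by
    have h5 : 𝒜.card ≤ (N ^ 2) ^ N := by
      rw [h𝒜, card_powersetCard, card_univ, Fintype.card_prod, Fintype.card_fin, Fintype.card_fin]
      refine le_trans (Nat.choose_le_pow _ _) ?_
      apply Nat.pow_le_pow_left
      calc m * N ≤ N * N := Nat.mul_le_mul_right _ hm
        _ = N ^ 2 := by ring
    have h6 : ((N : ℝ) ^ 2) ≤ Real.exp (2 * L) := by
      have h7 : (N : ℝ) ≤ Real.exp L := by
        have : (N : ℝ) ≤ (2 : ℝ) ^ L := by exact_mod_cast hNL.le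
        exact le_trans this (h2L L)
      calc (N : ℝ) ^ 2 ≤ Real.exp L ^ 2 := pow_le_pow_left₀ (by positivity) h7 2
        _ = Real.exp (2 * L) := by
            rw [← Real.exp_nat_mul]
            congr 1
    calc (𝒜.card : ℝ) ≤ ((N : ℝ) ^ 2) ^ N := by exact_mod_cast h5
      _ ≤ _ := pow_le_pow_left₀ (by positivity) h6 N
  have h8 : (𝒜.card : ℝ) * Real.exp (-(3 * L)) ^ N < 1 := by
    calc (𝒜.card : ℝ) * Real.exp (-(3 * L)) ^ N
        ≤ Real.exp (2 * L) ^ N * Real.exp (-(3 * L)) ^ N :=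
          mul_le_mul_of_nonneg_right h4 (by positivity)
      _ = Real.exp (-(N * L)) := by
          rw [← Real.exp_nat_mul, ← Real.exp_nat_mul, ← Real.exp_add]
          congr 1
          ring
      _ < 1 := by
          rw [← Real.exp_zero]
          apply Real.exp_lt_exp.2
          have h9 : (1 : ℝ) ≤ N := by exact_mod_cast hN
          have h10 : (1 : ℝ) ≤ L := by exact_mod_cast hL1
          have : (0 : ℝ) < N * L := by positivity
          linarith
  have h11 : (0 : ℝ) < (((R ^ Fintype.card Y) ^ N : ℕ) : ℝ) := by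
    have : 0 < (R ^ Fintype.card Y) ^ N := by positivity
    exact_mod_cast this
  have h12 := mul_lt_mul_of_pos_left h8 h11
  linarith

/-- The standard structure: `S = N^2 / T + N + 1` cells of `O(log N)` elements and a directory with
`N` states solve the problem in time `T + op`. -/
theorem upper (N T : ℕ) (hN : 1 ≤ N) (hT : 1 ≤ T) :
    Solvable N N 1 T (6 * (Nat.log 2 N + 1)) (N + (N ^ 2 / T + 1)) := by
  classical
  intro m hm
  obtain ⟨h, hh⟩ := exists_hash hN hT hm
  have hR0 : 0 < N ^ 2 / T + 1 := Nat.succ_pos _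
  refine ⟨fun d i j X t => finSumFinEquiv (
    if X.card ≤ T then (if hx : nth X t < N then Sum.inl ⟨nth X t, hx⟩ else Sum.inr ⟨0, hR0⟩)
    else (if ht : t < N then Sum.inr (h d (i, j, ⟨t, ht⟩)) else Sum.inr ⟨0, hR0⟩)), ?_⟩
  intro F hF
  obtain ⟨d, hd⟩ := hh F hF
  have hcardN : ∀ i, (F i).card ≤ N := by
    intro i
    have := card_le_card (hF.1 i)
    rwa [card_range] at this
  let cellS : Fin N ⊕ Fin (N ^ 2 / T + 1) → Finset ℕ := fun c => Sum.elim
    (fun x : Fin N => ({(x : ℕ)} : Finset ℕ))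
    (fun r : Fin (N ^ 2 / T + 1) => ((Zt N T F).filter (fun y => h d y = r)).image
      (fun y => nth (F y.1 ∩ F y.2.1) y.2.2)) c
  refine ⟨d, fun c => cellS (finSumFinEquiv.symm c), ?_, ?_⟩
  · intro c
    beta_reduce
    generalize finSumFinEquiv.symm c = s
    rcases s with x | r
    · simp only [cellS, Sum.elim_inl, card_singleton]
      omega
    · simp only [cellS, Sum.elim_inr]
      exact le_trans card_image_le (hd r)
  · -- a query with one light set
    have hlight : ∀ i j x, x ∈ F i → (F i).card ≤ T →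
        ∃ t < 1 * (T + (F i ∩ F j).card), x ∈ cellS (finSumFinEquiv.symm (finSumFinEquiv (
          if (F i).card ≤ T then (if hx : nth (F i) t < N then Sum.inl ⟨nth (F i) t, hx⟩
            else Sum.inr ⟨0, hR0⟩)
          else (if ht : t < N then Sum.inr (h d (i, j, ⟨t, ht⟩)) else Sum.inr ⟨0, hR0⟩)))) := by
      intro i j x hx hi
      obtain ⟨t, ht, hxt⟩ := exists_nth hx
      refine ⟨t, by omega, ?_⟩
      rw [Equiv.symm_apply_apply, if_pos hi]
      have hxN := mem_range.1 (hF.1 i hx)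
      rw [dif_pos (by rw [hxt]; exact hxN)]
      simp only [cellS, Sum.elim_inl, mem_singleton]
      exact hxt.symm
    intro i j hij x hx
    rw [mem_inter] at hx
    by_cases hi : (F i).card ≤ T
    · obtain ⟨t, ht, h1⟩ := hlight i j x hx.1 hi
      exact ⟨t, ht, Or.inl h1⟩
    by_cases hj : (F j).card ≤ T
    · obtain ⟨t, ht, h1⟩ := hlight j i x hx.2 hj
      rw [inter_comm] at ht
      exact ⟨t, ht, Or.inr h1⟩
    obtain ⟨t, ht, hxt⟩ := exists_nth (mem_inter.2 hx)
    refine ⟨t, by omega, Or.inl ?_⟩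
    have htN : t < N := lt_of_lt_of_le ht (le_trans (card_le_card inter_subset_left) (hcardN i))
    beta_reduce
    rw [Equiv.symm_apply_apply, if_neg hi, dif_pos htN]
    simp only [cellS, Sum.elim_inr]
    rw [mem_image]
    refine ⟨(i, j, ⟨t, htN⟩), ?_, hxt⟩
    rw [mem_filter]
    refine ⟨?_, rfl⟩
    unfold Zt
    rw [mem_filter]
    exact ⟨mem_univ _, ⟨not_le.1 hi, not_le.1 hj⟩, ht⟩

end Pool.Agent.SetIntOneSided
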