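import Pool.Agent.SetIntOneSided.Final

/-!
# The lower bound, numerical form
-/

namespace Pool.Agent.SetIntOneSided

open Finset

theorem two_pow_le_exp (k : ℕ) : (2 : ℝ) ^ k ≤ Real.exp (7 / 10 * k) := by
  have h1 : (2 : ℝ) ≤ Real.exp (7 / 10) := by
    have h2 := Real.log_two_lt_d9
    calc (2 : ℝ) = Real.exp (Real.log 2) := (Real.exp_log (by norm_num)).symm
      _ ≤ Real.exp (7 / 10) := Real.exp_le_exp.2 (by linarith)
  calc (2 : ℝ) ^ k ≤ Real.exp (7 / 10) ^ k := pow_le_pow_left₀ (by norm_num) h1 k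
    _ = Real.exp (7 / 10 * k) := by
        rw [← Real.exp_nat_mul]
        congr 1
        ring

/-- The lower bound in natural numbers. -/
theorem nat_bound {N D C T B S : ℕ} (hN : 2 ≤ N) (hC : 1 ≤ C) (hT : 1 ≤ T) (hB : 1 ≤ B)
    (hD : D ≤ 2 ^ (N / 100)) (H : Solvable N D C T B S) :
    N ^ 2 ≤ 10 ^ 11 * C ^ 2 * B ^ 3 * T * (Nat.log 2 N + 1) ^ 6 * S := by
  set L := Nat.log 2 N + 1 with hL
  have hL1 : 1 ≤ L := by omega
  have hNL : N < 2 ^ L := Nat.lt_pow_succ_log_self (by norm_num) N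
  set g := 4000 * B * C * L ^ 2 with hg
  have hBC : 1 ≤ B * C * L ^ 2 :=
    Nat.one_le_iff_ne_zero.2 (by positivity)
  have hg4 : 4000 ≤ g := by
    calc 4000 = 4000 * 1 := by norm_num
      _ ≤ 4000 * (B * C * L ^ 2) := Nat.mul_le_mul_left _ hBC
      _ = g := by rw [hg]; ring
  set u := g ^ 2 * T with hu
  have hu0 : 4000 * g ≤ u := by
    calc 4000 * g ≤ g * g := Nat.mul_le_mul_right _ hg4
      _ = g ^ 2 * 1 := by ring
      _ ≤ g ^ 2 * T := Nat.mul_le_mul_left _ hT
  have hhalf := half_le H hN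
  by_cases hcase : N < 2 * u
  · have h1 : N ≤ 3 * (S * B) := by omega
    calc N ^ 2 = N * N := by ring
      _ ≤ (2 * u) * (3 * (S * B)) := Nat.mul_le_mul hcase.le h1
      _ = 96000000 * C ^ 2 * B ^ 3 * T * L ^ 4 * S := by rw [hu, hg]; ring
      _ ≤ 10 ^ 11 * C ^ 2 * B ^ 3 * T * L ^ 6 * S := by
          apply Nat.mul_le_mul_right
          apply Nat.mul_le_mul
          · apply Nat.mul_le_mul_right
            apply Nat.mul_le_mul_right
            apply Nat.mul_le_mul_right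
            norm_num
          · exact Nat.pow_le_pow_right hL1 (by norm_num)
  push Not at hcase
  by_contra hcon
  push Not at hcon
  set p := N / (2 * u) with hp
  have hp1 : 1 ≤ p := (Nat.one_le_div_iff (by omega)).2 hcase
  have hpu : 2 * (u * p) ≤ N := by
    have := Nat.div_mul_le_self N (2 * u)
    calc 2 * (u * p) = N / (2 * u) * (2 * u) := by rw [hp]; ring
      _ ≤ N := this
  have hNp : N ≤ 4 * (u * p) := by
    have h1 : N < (2 * u) * (N / (2 * u) + 1) := Nat.lt_mul_div_succ N (by omega)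
    rw [← hp] at h1
    have h2 : (2 * u) * (p + 1) ≤ (2 * u) * (2 * p) := Nat.mul_le_mul_left _ (by omega)
    have h3 : (2 * u) * (2 * p) = 4 * (u * p) := by ring
    omega
  have hupu : u ≤ u * p := Nat.le_mul_of_pos_right _ hp1
  have hupp : p * (4000 * g) ≤ u * p := by
    rw [mul_comm u p]
    exact Nat.mul_le_mul_left _ hu0
  have hpg1 : 4000 * (p * g) ≤ u * p := by
    calc 4000 * (p * g) = p * (4000 * g) := by ring
      _ ≤ u * p := hupp
  have hpgpos : 1 ≤ p * g := Nat.one_le_iff_ne_zero.2 (by positivity)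
  have hNbig : 32000000 ≤ N := by
    calc 32000000 ≤ 2 * (4000 * g) := by omega
      _ ≤ 2 * u := Nat.mul_le_mul_left _ hu0
      _ ≤ N := hcase
  have hL5 : 5 ≤ L := by
    have : 4 ≤ Nat.log 2 N := (Nat.le_log_iff_pow_le (by norm_num) (by omega)).2 (by omega)
    omega
  -- real versions
  have hexp : (N : ℝ) ≤ Real.exp L := by
    have h1 : (N : ℝ) ≤ (2 : ℝ) ^ L := by exact_mod_cast hNL.le
    refine le_trans h1 (le_trans (two_pow_le_exp L) ?_)
    apply Real.exp_le_exp.2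
    have : (0 : ℝ) ≤ L := by positivity
    linarith
  have rC : (1 : ℝ) ≤ C := by exact_mod_cast hC
  have rT : (1 : ℝ) ≤ T := by exact_mod_cast hT
  have rB : (1 : ℝ) ≤ B := by exact_mod_cast hB
  have rL : (5 : ℝ) ≤ L := by exact_mod_cast hL5
  have rp : (1 : ℝ) ≤ p := by exact_mod_cast hp1
  have rg : (g : ℝ) = 4000 * B * C * L ^ 2 := by rw [hg]; push_cast; ring
  have ru : (u : ℝ) = g ^ 2 * T := by rw [hu]; push_cast; ring
  have rg4 : (4000 : ℝ) ≤ g := by exact_mod_cast hg4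
  refine core (N := N) (D := D) (C := C) (T := T) (B := B) (S := S) (u := u) (p := p) (g := g)
    (θ := 9 * L * T) (lam := L) H (by omega) (by omega) (by omega) rL ?_ ?_ ?_ hpu ?_ ?_ ?_
  · refine le_trans ?_ hexp
    have : p * g ≤ N := by omega
    exact_mod_cast this
  · refine le_trans ?_ hexp
    have : u ≤ N := by omega
    exact_mod_cast this
  · have h1 : 4 * (u : ℝ) / g ^ 2 = 4 * T := by
      rw [ru]
      field_simp
    rw [h1]
    push_cast
    have h2 : (0 : ℝ) ≤ (L - 1) * (T - 1) := mul_nonneg (by linarith) (by linarith)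
    nlinarith
  · omega
  · -- the directory
    have h1 : (D : ℝ) ≤ Real.exp (7 / 10 * (N / 100)) := by
      have h2 : (D : ℝ) ≤ (2 : ℝ) ^ (N / 100) := by exact_mod_cast hD
      refine le_trans h2 (le_trans (two_pow_le_exp _) ?_)
      apply Real.exp_le_exp.2
      have h3 : ((N / 100 : ℕ) : ℝ) ≤ (N : ℝ) / 100 := Nat.cast_div_le
      linarith
    have h4 : Real.exp (-(9 / 256 * ((u : ℝ) * p))) ≤ Real.exp (-(9 / 1024 * N)) := by
      apply Real.exp_le_exp.2
      have : (N : ℝ) ≤ 4 * (u * p) := by exact_mod_cast hNp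
      linarith
    have h5 : (D : ℝ) * Real.exp (-(9 / 256 * ((u : ℝ) * p))) ≤ Real.exp (-3) := by
      calc (D : ℝ) * Real.exp (-(9 / 256 * ((u : ℝ) * p)))
          ≤ Real.exp (7 / 10 * (N / 100)) * Real.exp (-(9 / 1024 * N)) :=
            mul_le_mul h1 h4 (Real.exp_pos _).le (Real.exp_pos _).le
        _ = Real.exp (7 / 10 * (N / 100) + -(9 / 1024 * N)) := by rw [Real.exp_add]
        _ ≤ Real.exp (-3) := by
            apply Real.exp_le_exp.2
            have : (32000000 : ℝ) ≤ N := by exact_mod_cast hNbig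
            linarith
    have h6 := exp_neg_three
    linarith
  · -- the space
    have h1 : ((C * (T + 9 * L * T) : ℕ) : ℝ) ≤ 10 * C * L * T := by
      push_cast
      have h2 : (0 : ℝ) ≤ C * ((L - 1) * T) :=
        mul_nonneg (by linarith) (mul_nonneg (by linarith) (by linarith))
      nlinarith
    generalize ((C * (T + 9 * L * T) : ℕ) : ℝ) = l at h1 ⊢
    have h2 : (B : ℝ) * (22 * L * l * p ^ 2 * g) ≤ (u : ℝ) * p ^ 2 / 16 := by
      have e1 : (B : ℝ) * (22 * L * l * p ^ 2 * g) = (B * 22 * L * p ^ 2 * g) * l := by ring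
      have e2 : (B * 22 * L * p ^ 2 * g : ℝ) * l ≤ (B * 22 * L * p ^ 2 * g) * (10 * C * L * T) :=
        mul_le_mul_of_nonneg_left h1 (by positivity)
      have e3 : (B * 22 * L * p ^ 2 * g : ℝ) * (10 * C * L * T) =
          (220 * B * C * L ^ 2) * (p ^ 2 * g * T) := by ring
      have e4 : (220 * B * C * L ^ 2 : ℝ) * (p ^ 2 * g * T) ≤
          (250 * B * C * L ^ 2) * (p ^ 2 * g * T) := by
        apply mul_le_mul_of_nonneg_right _ (by positivity)
        have : (0 : ℝ) ≤ B * C * L ^ 2 := by positivity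
        linarith
      have e5 : (250 : ℝ) * B * C * L ^ 2 = g / 16 := by rw [rg]; ring
      have e6 : (g : ℝ) / 16 * (p ^ 2 * g * T) = (u : ℝ) * p ^ 2 / 16 := by
        rw [ru]
        ring
      rw [e5] at e4
      linarith
    have h3 : (B : ℝ) * (12 * L ^ 2 * S) ≤ (u : ℝ) * p ^ 2 / 16 := by
      have h4 : (10 : ℝ) ^ 11 * C ^ 2 * B ^ 3 * T * L ^ 6 * S < (N : ℝ) ^ 2 := by
        exact_mod_cast hcon
      have h5 : (N : ℝ) ^ 2 ≤ (4 * (u * p)) ^ 2 := by
        apply pow_le_pow_left₀ (by positivity)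
        exact_mod_cast hNp
      have h6 : ((4 : ℝ) * (u * p)) ^ 2 =
          (B ^ 2 * C ^ 2 * L ^ 4 * T) * (256000000 * (u * p ^ 2)) := by
        have h7 : ((4 : ℝ) * (u * p)) ^ 2 = 16 * (u : ℝ) * (u * p ^ 2) := by ring
        have h7' : 16 * (u : ℝ) = (B ^ 2 * C ^ 2 * L ^ 4 * T) * 256000000 := by
          rw [ru, rg]
          ring
        rw [h7, h7']
        ring
      have h8 : (10 : ℝ) ^ 11 * C ^ 2 * B ^ 3 * T * L ^ 6 * S =
          (B ^ 2 * C ^ 2 * L ^ 4 * T) * (10 ^ 11 * (B * L ^ 2 * S)) := by ring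
      have h9 : (0 : ℝ) < B ^ 2 * C ^ 2 * L ^ 4 * T := by positivity
      have h10 : (B ^ 2 * C ^ 2 * L ^ 4 * T : ℝ) * (10 ^ 11 * (B * L ^ 2 * S)) <
          (B ^ 2 * C ^ 2 * L ^ 4 * T) * (256000000 * (u * p ^ 2)) := by
        rw [← h8, ← h6]
        linarith
      have h11 := lt_of_mul_lt_mul_left h10 h9.le
      have h12 : (0 : ℝ) ≤ (u : ℝ) * p ^ 2 := by positivity
      have h13 : (B : ℝ) * (12 * L ^ 2 * S) = 12 * (B * L ^ 2 * S) := by ring
      rw [h13]
      linarith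
    have h14 : (B : ℝ) * (22 * L * l * p ^ 2 * g + 12 * L ^ 2 * S) =
        (B : ℝ) * (22 * L * l * p ^ 2 * g) + (B : ℝ) * (12 * L ^ 2 * S) := by ring
    rw [h14]
    linarith

end Pool.Agent.SetIntOneSided
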