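import Pool.Agent.SetIntOneSided.Disc

/-!
# The most popular element of one cell
-/

namespace Pool.Agent.SetIntOneSided

open Finset

variable {u p g : ℕ}

/-- Index type of the sets of one side. -/
abbrev Ix (p g : ℕ) := Fin p × Fin g

/-- Number of left sets that contain `x` and are joined with `j`. -/
def wt (P : Finset (Ix p g × Ix p g)) (ω : Om u p g) (x : Fin u) (j : Ix p g) : ℕ :=
  (univ.filter (fun r : Fin p => ((r, ω (x, r)), j) ∈ P)).card

/-- The left neighbourhood of `j`. -/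
def nb (P : Finset (Ix p g × Ix p g)) (j : Ix p g) : Finset (Ix p g) :=
  univ.filter (fun i => (i, j) ∈ P)

/-- Number of pairs of `P` in whose intersection the element `x` is. -/
def pop (P : Finset (Ix p g × Ix p g)) (ω ω' : Om u p g) (x : Fin u) : ℕ :=
  (univ.filter (fun q : Fin p × Fin p => ((q.1, ω (x, q.1)), (q.2, ω' (x, q.2))) ∈ P)).card

theorem pop_eq (P : Finset (Ix p g × Ix p g)) (ω ω' : Om u p g) (x : Fin u) :
    pop P ω ω' x = ∑ r' : Fin p, wt P ω x (r', ω' (x, r')) := by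
  unfold pop wt
  simp_rw [card_filter]
  rw [Fintype.sum_prod_type, sum_comm]

theorem sum_wt (P : Finset (Ix p g × Ix p g)) (ω : Om u p g) (X : Finset (Fin u)) (j : Ix p g) :
    ∑ x ∈ X, wt P ω x j = inc ω (nb P j) X := by
  unfold wt inc nb
  simp_rw [card_filter]
  rw [Fintype.sum_prod_type, ← sum_subset (subset_univ X)]
  · refine sum_congr rfl (fun x hx => sum_congr rfl (fun r _ => ?_))
    simp [hx]
  · intro x _ hx
    simp [hx]

theorem sum_nb (P : Finset (Ix p g × Ix p g)) : ∑ j, (nb P j).card = P.card := by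
  unfold nb
  simp_rw [card_filter]
  rw [← Fintype.sum_prod_type_right' (f := fun (i j : Ix p g) => if (i, j) ∈ P then 1 else 0)]
  simp

theorem wt_le (P : Finset (Ix p g × Ix p g)) (ω : Om u p g) (x : Fin u) (j : Ix p g) :
    wt P ω x j ≤ (nb P j).card := by
  unfold wt nb
  apply card_le_card_of_injOn (fun r => (r, ω (x, r)))
  · intro r hr
    simpa using hr
  · intro r _ r' _ h
    exact congrArg Prod.fst h

/-- The threshold for large weights. -/
noncomputable def thr (lam : ℝ) (P : Finset (Ix p g × Ix p g)) (j : Ix p g) : ℝ :=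
  4 * (nb P j).card / g + 6 * lam

open Classical in
/-- The large part of a weight. -/
noncomputable def big (lam : ℝ) (P : Finset (Ix p g × Ix p g)) (ω : Om u p g) (x : Fin u)
    (j : Ix p g) : ℝ :=
  if thr lam P j < wt P ω x j then (wt P ω x j : ℝ) else 0

theorem big_nonneg (lam : ℝ) (P : Finset (Ix p g × Ix p g)) (ω : Om u p g) (x : Fin u)
    (j : Ix p g) : 0 ≤ big lam P ω x j := by
  unfold big
  split_ifs <;> positivity

open Classical in
theorem sum_big {lam : ℝ} (P : Finset (Ix p g × Ix p g)) (ω : Om u p g)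
    (hD : Disc lam ω) (j : Ix p g) : ∑ x, big lam P ω x j ≤ 6 * lam * (nb P j).card := by
  set X : Finset (Fin u) := univ.filter (fun x => thr lam P j < wt P ω x j) with hX
  have h1 : ∑ x, big lam P ω x j = (inc ω (nb P j) X : ℝ) := by
    unfold big
    rw [← sum_filter, ← hX, ← Nat.cast_sum, sum_wt]
  have h2 : X.card * thr lam P j ≤ (inc ω (nb P j) X : ℝ) := by
    rw [← sum_wt, Nat.cast_sum]
    calc X.card * thr lam P j = ∑ _x ∈ X, thr lam P j := by rw [sum_const, nsmul_eq_mul]
      _ ≤ _ := sum_le_sum (fun x hx => (mem_filter.1 hx).2.le)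
  have h3 := hD (nb P j) X
  rw [h1]
  unfold thr at h2
  have h4 : (X.card : ℝ) * (4 * (nb P j).card / g + 6 * lam) =
      2 * (2 * (X.card * (nb P j).card) / g) + 2 * (3 * lam * X.card) := by ring
  have h5 : 3 * lam * (((nb P j).card : ℝ) + X.card) =
      3 * lam * (nb P j).card + 3 * lam * X.card := by ring
  linarith

/-- Letters for the number of nonzero weights. -/
def GZ (P : Finset (Ix p g × Ix p g)) (ω : Om u p g) (x : Fin u) (k : Fin u × Fin p) :
    Finset (Fin g) :=
  univ.filter (fun a : Fin g => k.1 = x ∧ 1 ≤ wt P ω x (k.2, a))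

/-- Number of nonzero weights. -/
def zc (P : Finset (Ix p g × Ix p g)) (ω ω' : Om u p g) (x : Fin u) : ℕ :=
  (univ.filter (fun k : Fin u × Fin p => ω' k ∈ GZ P ω x k)).card

theorem zc_eq (P : Finset (Ix p g × Ix p g)) (ω ω' : Om u p g) (x : Fin u) :
    zc P ω ω' x = ∑ r' : Fin p, (if 1 ≤ wt P ω x (r', ω' (x, r')) then 1 else 0) := by
  unfold zc GZ
  rw [card_filter, Fintype.sum_prod_type, sum_eq_single x]
  · refine sum_congr rfl (fun r _ => ?_)
    simp
  · intro y _ hy
    simp [hy]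
  · simp

theorem sum_card_GZ (P : Finset (Ix p g × Ix p g)) (ω : Om u p g) (x : Fin u) :
    ∑ k : Fin u × Fin p, ((GZ P ω x k).card : ℝ) ≤ P.card := by
  rw [← Nat.cast_sum]
  apply Nat.cast_le.2
  rw [Fintype.sum_prod_type, sum_eq_single x]
  · calc ∑ r : Fin p, (GZ P ω x (x, r)).card
        ≤ ∑ r : Fin p, ∑ a : Fin g, wt P ω x (r, a) := by
          refine sum_le_sum (fun r _ => ?_)
          unfold GZ
          rw [card_filter]
          refine sum_le_sum (fun a _ => ?_)
          split_ifs with h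
          · exact h.2
          · exact Nat.zero_le _
      _ = ∑ j : Ix p g, wt P ω x j := by rw [Fintype.sum_prod_type]
      _ ≤ ∑ j : Ix p g, (nb P j).card := sum_le_sum (fun j _ => wt_le P ω x j)
      _ = P.card := sum_nb P
  · intro y _ hy
    unfold GZ
    simp [hy]
  · simp

theorem wt_bound {lam : ℝ} (hl : 0 ≤ lam) (P : Finset (Ix p g × Ix p g)) (ω : Om u p g)
    (x : Fin u) (j : Ix p g) :
    (wt P ω x j : ℝ) ≤ 4 * (nb P j).card / g +
      6 * lam * ((if 1 ≤ wt P ω x j then 1 else 0 : ℕ) : ℝ) + big lam P ω x j := by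
  unfold big thr
  have h0 : (0 : ℝ) ≤ 4 * (nb P j).card / g := by positivity
  split_ifs with h1 h2 h2
  · push_cast
    linarith
  · push_cast
    push Not at h2
    linarith
  · push_cast
    linarith
  · have : wt P ω x j = 0 := by omega
    rw [this]
    push_cast
    linarith

/-- Total large part. -/
noncomputable def Yt (lam : ℝ) (P : Finset (Ix p g × Ix p g)) (ω ω' : Om u p g) : ℝ :=
  ∑ k : Fin u × Fin p, big lam P ω k.1 (k.2, ω' k)

theorem pop_bound {lam : ℝ} (hl : 0 ≤ lam) (P : Finset (Ix p g × Ix p g)) (ω ω' : Om u p g)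
    (x : Fin u) :
    (pop P ω ω' x : ℝ) ≤ 4 * P.card / g + 6 * lam * zc P ω ω' x + Yt lam P ω ω' := by
  rw [pop_eq, zc_eq, Nat.cast_sum, Nat.cast_sum, mul_sum]
  have h1 : ∑ r' : Fin p, (4 * ((nb P (r', ω' (x, r'))).card : ℝ) / g) ≤ 4 * P.card / g := by
    rw [← sum_div, ← mul_sum]
    apply div_le_div_of_nonneg_right _ (by positivity)
    apply mul_le_mul_of_nonneg_left _ (by norm_num)
    rw [← sum_nb P, ← Nat.cast_sum]
    apply Nat.cast_le.2
    rw [Fintype.sum_prod_type]
    refine sum_le_sum (fun r _ => ?_)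
    exact single_le_sum (f := fun a => (nb P (r, a)).card) (fun _ _ => Nat.zero_le _) (mem_univ _)
  have h2 : ∑ r' : Fin p, big lam P ω x (r', ω' (x, r')) ≤ Yt lam P ω ω' := by
    unfold Yt
    rw [Fintype.sum_prod_type]
    exact single_le_sum (f := fun x => ∑ r' : Fin p, big lam P ω x (r', ω' (x, r')))
      (fun _ _ => sum_nonneg fun _ _ => big_nonneg _ _ _ _ _) (mem_univ x)
  calc ∑ r' : Fin p, (wt P ω x (r', ω' (x, r')) : ℝ)
      ≤ ∑ r' : Fin p, (4 * ((nb P (r', ω' (x, r'))).card : ℝ) / g +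
          6 * lam * ((if 1 ≤ wt P ω x (r', ω' (x, r')) then 1 else 0 : ℕ) : ℝ) +
          big lam P ω x (r', ω' (x, r'))) := sum_le_sum (fun r' _ => wt_bound hl P ω x _)
    _ = _ := by rw [sum_add_distrib, sum_add_distrib]
    _ ≤ _ := by linarith

/-- A bound for all popularities at once. -/
noncomputable def Qb (lam : ℝ) (P : Finset (Ix p g × Ix p g)) (ω ω' : Om u p g) : ℝ :=
  4 * P.card / g + 6 * lam * ((lam + 2 * P.card / g) +
    Real.exp (-(lam + 2 * P.card / g)) * ∑ x, Real.exp (zc P ω ω' x)) + Yt lam P ω ω'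

theorem pop_le_Qb {lam : ℝ} (hl : 0 ≤ lam) (P : Finset (Ix p g × Ix p g)) (ω ω' : Om u p g)
    (x : Fin u) : (pop P ω ω' x : ℝ) ≤ Qb lam P ω ω' := by
  refine le_trans (pop_bound hl P ω ω' x) ?_
  unfold Qb
  have h1 : (zc P ω ω' x : ℝ) ≤ (lam + 2 * P.card / g) +
      Real.exp (-(lam + 2 * P.card / g)) * ∑ x, Real.exp (zc P ω ω' x) := by
    have h2 : Real.exp (zc P ω ω' x) ≤ ∑ x, Real.exp ((zc P ω ω' x : ℕ) : ℝ) :=
      single_le_sum (f := fun x => Real.exp ((zc P ω ω' x : ℕ) : ℝ))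
        (fun _ _ => (Real.exp_pos _).le) (mem_univ x)
    have h3 : Real.exp (-(lam + 2 * P.card / g)) * Real.exp (zc P ω ω' x) ≤
        Real.exp (-(lam + 2 * P.card / g)) * ∑ x, Real.exp (zc P ω ω' x) :=
      mul_le_mul_of_nonneg_left h2 (Real.exp_pos _).le
    rw [← Real.exp_add] at h3
    have h4 := Real.add_one_le_exp (-(lam + 2 * P.card / g) + (zc P ω ω' x : ℝ))
    linarith
  have h5 := mul_le_mul_of_nonneg_left h1 (by positivity : (0 : ℝ) ≤ 6 * lam)
  linarith

/-- The expected bound. -/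
theorem sum_Qb {lam : ℝ} (hg : 0 < g) (hl : 1 ≤ lam) (hu : (u : ℝ) ≤ Real.exp lam)
    (P : Finset (Ix p g × Ix p g)) (ω : Om u p g) (hD : Disc lam ω) :
    ∑ ω' : Om u p g, Qb lam P ω ω' ≤
      (g : ℝ) ^ (u * p) * (22 * lam * P.card / g + 12 * lam ^ 2) := by
  have hg' : (0 : ℝ) < g := by exact_mod_cast hg
  have hpow : (0 : ℝ) < (g : ℝ) ^ (u * p) := by positivity
  have hcard : (Fintype.card (Om u p g) : ℝ) = (g : ℝ) ^ (u * p) := by
    rw [Fintype.card_fun, Fintype.card_prod, Fintype.card_fin, Fintype.card_fin, Fintype.card_fin]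
    push_cast
    rfl
  -- the count of nonzero weights
  have hZ : ∑ ω' : Om u p g, ∑ x, Real.exp (zc P ω ω' x) ≤
      (g : ℝ) ^ (u * p) * Real.exp (lam + 2 * P.card / g) := by
    rw [sum_comm]
    calc ∑ x : Fin u, ∑ ω' : Om u p g, Real.exp (zc P ω ω' x)
        ≤ ∑ _x : Fin u, (g : ℝ) ^ (u * p) * Real.exp (2 * P.card / g) := by
          refine sum_le_sum (fun x _ => ?_)
          have h := moment_exp hg (GZ P ω x)
          rw [Fintype.card_prod, Fintype.card_fin, Fintype.card_fin] at h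
          refine le_trans h ?_
          apply mul_le_mul_of_nonneg_left _ hpow.le
          apply Real.exp_le_exp.2
          apply div_le_div_of_nonneg_right _ hg'.le
          exact mul_le_mul_of_nonneg_left (sum_card_GZ P ω x) (by norm_num)
      _ = (g : ℝ) ^ (u * p) * (u * Real.exp (2 * P.card / g)) := by
          rw [sum_const, card_univ, Fintype.card_fin, nsmul_eq_mul]
          ring
      _ ≤ (g : ℝ) ^ (u * p) * (Real.exp lam * Real.exp (2 * P.card / g)) := by
          apply mul_le_mul_of_nonneg_left _ hpow.le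
          exact mul_le_mul_of_nonneg_right hu (Real.exp_pos _).le
      _ = _ := by rw [Real.exp_add]
  -- the large part
  have hY : ∑ ω' : Om u p g, Yt lam P ω ω' ≤ (g : ℝ) ^ (u * p) * (6 * lam * P.card / g) := by
    unfold Yt
    rw [sum_comm]
    have h1 : ∀ k : Fin u × Fin p, ∑ ω' : Om u p g, big lam P ω k.1 (k.2, ω' k) =
        (g : ℝ) ^ (u * p) * ((∑ a, big lam P ω k.1 (k.2, a)) / g) := by
      intro k
      have h := marginal hg k (fun a => big lam P ω k.1 (k.2, a))
      rw [Fintype.card_prod, Fintype.card_fin, Fintype.card_fin] at h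
      exact h
    simp_rw [h1]
    rw [← mul_sum, ← sum_div]
    apply mul_le_mul_of_nonneg_left _ hpow.le
    apply div_le_div_of_nonneg_right _ hg'.le
    rw [Fintype.sum_prod_type]
    calc ∑ x : Fin u, ∑ r : Fin p, ∑ a : Fin g, big lam P ω x (r, a)
        = ∑ x : Fin u, ∑ j : Ix p g, big lam P ω x j := by
          refine sum_congr rfl (fun x _ => ?_)
          rw [Fintype.sum_prod_type]
      _ = ∑ j : Ix p g, ∑ x : Fin u, big lam P ω x j := sum_comm
      _ ≤ ∑ j : Ix p g, 6 * lam * (nb P j).card := sum_le_sum (fun j _ => sum_big P ω hD j)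
      _ = 6 * lam * P.card := by
          rw [← mul_sum, ← Nat.cast_sum, sum_nb]
  set κ : ℝ := lam + 2 * P.card / g with hκ
  have hsplit : ∑ ω' : Om u p g, Qb lam P ω ω' =
      (g : ℝ) ^ (u * p) * (4 * P.card / g + 6 * lam * κ) +
        6 * lam * Real.exp (-κ) * ∑ ω' : Om u p g, ∑ x, Real.exp (zc P ω ω' x) +
        ∑ ω' : Om u p g, Yt lam P ω ω' := by
    unfold Qb
    rw [sum_add_distrib]
    congr 1
    have h1 : ∀ ω' : Om u p g, 4 * (P.card : ℝ) / g + 6 * lam * (lam + 2 * P.card / g +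
        Real.exp (-(lam + 2 * P.card / g)) * ∑ x, Real.exp (zc P ω ω' x)) =
        (4 * P.card / g + 6 * lam * κ) + 6 * lam * Real.exp (-κ) *
          ∑ x, Real.exp (zc P ω ω' x) := by
      intro ω'
      rw [hκ]
      ring
    simp_rw [h1]
    rw [sum_add_distrib, sum_const, card_univ, nsmul_eq_mul, hcard, ← mul_sum]
  have hE : Real.exp (-κ) * Real.exp κ = 1 := by
    rw [← Real.exp_add]
    simp
  have h2 : 6 * lam * Real.exp (-κ) * ∑ ω' : Om u p g, ∑ x, Real.exp (zc P ω ω' x) ≤
      (g : ℝ) ^ (u * p) * (6 * lam) := by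
    calc 6 * lam * Real.exp (-κ) * ∑ ω' : Om u p g, ∑ x, Real.exp (zc P ω ω' x)
        ≤ 6 * lam * Real.exp (-κ) * ((g : ℝ) ^ (u * p) * Real.exp κ) := by
          apply mul_le_mul_of_nonneg_left hZ
          have := (Real.exp_pos (-κ)).le
          positivity
      _ = (g : ℝ) ^ (u * p) * (6 * lam) * (Real.exp (-κ) * Real.exp κ) := by ring
      _ = _ := by rw [hE, mul_one]
  rw [hsplit]
  have h3 : (g : ℝ) ^ (u * p) * (4 * P.card / g + 6 * lam * κ) + (g : ℝ) ^ (u * p) * (6 * lam) +
      (g : ℝ) ^ (u * p) * (6 * lam * P.card / g) =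
      (g : ℝ) ^ (u * p) * (4 * (P.card / g) + 18 * lam * (P.card / g) + 6 * lam ^ 2 +
        6 * lam) := by
    rw [hκ]
    ring
  have h4 : 4 * ((P.card : ℝ) / g) + 18 * lam * (P.card / g) + 6 * lam ^ 2 + 6 * lam ≤
      22 * lam * P.card / g + 12 * lam ^ 2 := by
    have h5 : (0 : ℝ) ≤ (P.card : ℝ) / g := by positivity
    have h6 : 22 * lam * P.card / g = 22 * (lam * ((P.card : ℝ) / g)) := by ring
    rw [h6]
    nlinarith [mul_nonneg (sub_nonneg.2 hl) h5]
  have h7 := mul_le_mul_of_nonneg_left h4 hpow.le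
  linarith

end Pool.Agent.SetIntOneSided
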