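import Pool.Agent.SetIntOneSided.McDiarmid
import Pool.Agent.SetIntOneSided.Cell

/-!
# Coverage by fixed lists
-/

namespace Pool.Agent.SetIntOneSided

open Finset

variable {u p g S : ℕ}

/-- Number of triples (element, left block, right block) served by the contents `cell`, when the
cells read by the pair `(i, j)` are those of `A i j`. -/
def cov (A : Ix p g → Ix p g → Finset (Fin S)) (cell : Fin S → Finset (Fin u))
    (ω ω' : Om u p g) : ℕ :=
  (univ.filter (fun q : Fin u × Fin p × Fin p =>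
    ∃ c ∈ A (q.2.1, ω (q.1, q.2.1)) (q.2.2, ω' (q.1, q.2.2)), q.1 ∈ cell c)).card

/-- The best coverage by cells with at most `B` elements. -/
def maxcov (B : ℕ) (A : Ix p g → Ix p g → Finset (Fin S)) (ω ω' : Om u p g) : ℕ :=
  (univ.filter (fun cell : Fin S → Finset (Fin u) => ∀ c, (cell c).card ≤ B)).sup
    (fun cell => cov A cell ω ω')

theorem cov_update (A : Ix p g → Ix p g → Finset (Fin S)) (cell : Fin S → Finset (Fin u))
    (ω ω' ω'' : Om u p g) (k : Fin u × Fin p) (h : ∀ k', k' ≠ k → ω'' k' = ω' k') :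
    cov A cell ω ω'' ≤ cov A cell ω ω' + p := by
  unfold cov
  have hsub : univ.filter (fun q : Fin u × Fin p × Fin p =>
      ∃ c ∈ A (q.2.1, ω (q.1, q.2.1)) (q.2.2, ω'' (q.1, q.2.2)), q.1 ∈ cell c) ⊆
      univ.filter (fun q : Fin u × Fin p × Fin p =>
      ∃ c ∈ A (q.2.1, ω (q.1, q.2.1)) (q.2.2, ω' (q.1, q.2.2)), q.1 ∈ cell c) ∪
      (univ : Finset (Fin p)).image (fun r => (k.1, r, k.2)) := by
    intro q hq
    rw [mem_filter] at hq
    rw [mem_union, mem_filter, mem_image]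
    by_cases hk : (q.1, q.2.2) = k
    · right
      refine ⟨q.2.1, mem_univ _, ?_⟩
      rw [← hk]
    · left
      refine ⟨mem_univ _, ?_⟩
      rw [← h _ hk]
      exact hq.2
  refine le_trans (card_le_card hsub) (le_trans (card_union_le _ _) ?_)
  apply Nat.add_le_add_left
  refine le_trans card_image_le ?_
  rw [card_univ, Fintype.card_fin]

theorem maxcov_update (B : ℕ) (A : Ix p g → Ix p g → Finset (Fin S))
    (ω ω' ω'' : Om u p g) (k : Fin u × Fin p) (h : ∀ k', k' ≠ k → ω'' k' = ω' k') :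
    maxcov B A ω ω'' ≤ maxcov B A ω ω' + p := by
  unfold maxcov
  rw [Finset.sup_le_iff]
  intro cell hcell
  refine le_trans (cov_update A cell ω ω' ω'' k h) ?_
  apply Nat.add_le_add_right
  exact le_sup (f := fun cell => cov A cell ω ω') hcell

theorem maxcov_diff (B : ℕ) (A : Ix p g → Ix p g → Finset (Fin S)) (ω ω' : Om u p g)
    (k : Fin u × Fin p) (a : Fin g) :
    |(maxcov B A ω (Function.update ω' k a) : ℝ) - maxcov B A ω ω'| ≤ p := by
  have h1 := maxcov_update B A ω ω' (Function.update ω' k a) k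
    (fun k' hk' => Function.update_of_ne hk' _ _)
  have h2 := maxcov_update B A ω (Function.update ω' k a) ω' k
    (fun k' hk' => (Function.update_of_ne hk' _ _).symm)
  have h1' : (maxcov B A ω (Function.update ω' k a) : ℝ) ≤ maxcov B A ω ω' + p := by
    exact_mod_cast h1
  have h2' : (maxcov B A ω ω' : ℝ) ≤ maxcov B A ω (Function.update ω' k a) + p := by
    exact_mod_cast h2
  rw [abs_le]
  constructor <;> linarith

/-- Pairs that read the cell `c`. -/
def rd (A : Ix p g → Ix p g → Finset (Fin S)) (c : Fin S) : Finset (Ix p g × Ix p g) :=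
  univ.filter (fun q => c ∈ A q.1 q.2)

theorem sum_rd (A : Ix p g → Ix p g → Finset (Fin S)) (l : ℕ) (hA : ∀ i j, (A i j).card ≤ l) :
    ∑ c, (rd A c).card ≤ l * (p * g) ^ 2 := by
  unfold rd
  simp_rw [card_filter]
  rw [sum_comm]
  calc ∑ q : Ix p g × Ix p g, ∑ c, (if c ∈ A q.1 q.2 then 1 else 0)
      = ∑ q : Ix p g × Ix p g, (A q.1 q.2).card := by
        refine sum_congr rfl (fun q _ => ?_)
        simp
    _ ≤ ∑ _q : Ix p g × Ix p g, l := sum_le_sum (fun q _ => hA _ _)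
    _ = l * (p * g) ^ 2 := by
        rw [sum_const, card_univ, Fintype.card_prod, Fintype.card_prod, Fintype.card_fin,
          Fintype.card_fin, smul_eq_mul]
        ring

theorem cov_le (A : Ix p g → Ix p g → Finset (Fin S)) (cell : Fin S → Finset (Fin u))
    (ω ω' : Om u p g) : cov A cell ω ω' ≤ ∑ c, ∑ x ∈ cell c, pop (rd A c) ω ω' x := by
  unfold cov pop rd
  have hsub : univ.filter (fun q : Fin u × Fin p × Fin p =>
      ∃ c ∈ A (q.2.1, ω (q.1, q.2.1)) (q.2.2, ω' (q.1, q.2.2)), q.1 ∈ cell c) ⊆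
      (univ : Finset (Fin S)).biUnion (fun c => (cell c).biUnion (fun x =>
        (univ.filter (fun q : Fin p × Fin p => ((q.1, ω (x, q.1)), (q.2, ω' (x, q.2))) ∈
          univ.filter (fun q : Ix p g × Ix p g => c ∈ A q.1 q.2))).image (fun q => (x, q)))) := by
    intro q hq
    rw [mem_filter] at hq
    obtain ⟨_, c, hc, hx⟩ := hq
    rw [mem_biUnion]
    refine ⟨c, mem_univ _, ?_⟩
    rw [mem_biUnion]
    refine ⟨q.1, hx, ?_⟩
    rw [mem_image]
    refine ⟨q.2, ?_, rfl⟩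
    rw [mem_filter, mem_filter]
    exact ⟨mem_univ _, mem_univ _, hc⟩
  refine le_trans (card_le_card hsub) (le_trans card_biUnion_le ?_)
  refine sum_le_sum (fun c _ => le_trans card_biUnion_le ?_)
  exact sum_le_sum (fun x _ => card_image_le)

theorem Qb_nonneg {lam : ℝ} (hl : 0 ≤ lam) (P : Finset (Ix p g × Ix p g)) (ω ω' : Om u p g) :
    0 ≤ Qb lam P ω ω' := by
  unfold Qb Yt
  have h1 : 0 ≤ ∑ k : Fin u × Fin p, big lam P ω k.1 (k.2, ω' k) :=
    sum_nonneg fun _ _ => big_nonneg _ _ _ _ _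
  have h2 : 0 ≤ ∑ x, Real.exp ((zc P ω ω' x : ℕ) : ℝ) := sum_nonneg fun _ _ => (Real.exp_pos _).le
  positivity

theorem maxcov_le {lam : ℝ} (hl : 0 ≤ lam) (B : ℕ) (A : Ix p g → Ix p g → Finset (Fin S))
    (ω ω' : Om u p g) : (maxcov B A ω ω' : ℝ) ≤ B * ∑ c, Qb lam (rd A c) ω ω' := by
  obtain ⟨cell, hcell, hmax⟩ := exists_mem_eq_sup
    (univ.filter (fun cell : Fin S → Finset (Fin u) => ∀ c, (cell c).card ≤ B))
    ⟨fun _ => ∅, by simp⟩ (fun cell => cov A cell ω ω')
  unfold maxcov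
  rw [hmax]
  have h1 : (cov A cell ω ω' : ℝ) ≤ ∑ c, ∑ x ∈ cell c, (pop (rd A c) ω ω' x : ℝ) := by
    exact_mod_cast cov_le A cell ω ω'
  refine le_trans h1 ?_
  rw [mul_sum]
  refine sum_le_sum (fun c _ => ?_)
  calc ∑ x ∈ cell c, (pop (rd A c) ω ω' x : ℝ)
      ≤ ∑ _x ∈ cell c, Qb lam (rd A c) ω ω' := sum_le_sum (fun x _ => pop_le_Qb hl _ _ _ _)
    _ = (cell c).card * Qb lam (rd A c) ω ω' := by rw [sum_const, nsmul_eq_mul]
    _ ≤ B * Qb lam (rd A c) ω ω' := by
        apply mul_le_mul_of_nonneg_right _ (Qb_nonneg hl _ _ _)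
        exact_mod_cast (mem_filter.1 hcell).2 c

/-- For fixed lists and a good left side, few right sides are half covered. -/
theorem few_covered {lam : ℝ} (hg : 0 < g) (hu0 : 0 < u) (hp : 0 < p) (hl : 1 ≤ lam)
    (hu : (u : ℝ) ≤ Real.exp lam) (B l : ℕ) (A : Ix p g → Ix p g → Finset (Fin S))
    (hA : ∀ i j, (A i j).card ≤ l) (ω : Om u p g) (hD : Disc lam ω)
    (hS : (B : ℝ) * (22 * lam * l * p ^ 2 * g + 12 * lam ^ 2 * S) ≤ u * p ^ 2 / 8) :
    ((univ.filter (fun ω' : Om u p g => (u * p ^ 2 / 2 : ℝ) ≤ maxcov B A ω ω')).card : ℝ) ≤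
      (g : ℝ) ^ (u * p) * Real.exp (-(9 / 256 * (u * p))) := by
  have hg' : (0 : ℝ) < g := by exact_mod_cast hg
  have hu' : (0 : ℝ) < u := by exact_mod_cast hu0
  have hp' : (0 : ℝ) < p := by exact_mod_cast hp
  have hpow : (0 : ℝ) < (g : ℝ) ^ (u * p) := by positivity
  have : Nonempty (Fin g) := ⟨⟨0, hg⟩⟩
  have hmean : ∑ ω' : Om u p g, (maxcov B A ω ω' : ℝ) ≤
      (Fintype.card (Fin g) : ℝ) ^ (Fintype.card (Fin u × Fin p)) * (u * p ^ 2 / 8) := by
    rw [Fintype.card_prod, Fintype.card_fin, Fintype.card_fin, Fintype.card_fin]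
    calc ∑ ω' : Om u p g, (maxcov B A ω ω' : ℝ)
        ≤ ∑ ω' : Om u p g, B * ∑ c, Qb lam (rd A c) ω ω' :=
          sum_le_sum (fun ω' _ => maxcov_le (by linarith) B A ω ω')
      _ = B * ∑ c, ∑ ω' : Om u p g, Qb lam (rd A c) ω ω' := by
          rw [← mul_sum, sum_comm]
      _ ≤ B * ∑ c, (g : ℝ) ^ (u * p) * (22 * lam * (rd A c).card / g + 12 * lam ^ 2) := by
          apply mul_le_mul_of_nonneg_left _ (by positivity)
          exact sum_le_sum (fun c _ => sum_Qb hg hl hu (rd A c) ω hD)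
      _ = (g : ℝ) ^ (u * p) * (B * (22 * lam * ((∑ c, (rd A c).card : ℕ) : ℝ) / g +
            12 * lam ^ 2 * S)) := by
          rw [← mul_sum, sum_add_distrib, sum_const, card_univ, Fintype.card_fin, nsmul_eq_mul,
            ← sum_div, ← mul_sum, ← Nat.cast_sum]
          ring
      _ ≤ (g : ℝ) ^ (u * p) * (B * (22 * lam * l * p ^ 2 * g + 12 * lam ^ 2 * S)) := by
          apply mul_le_mul_of_nonneg_left _ hpow.le
          apply mul_le_mul_of_nonneg_left _ (by positivity)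
          apply add_le_add_left
          have h1 : ((∑ c, (rd A c).card : ℕ) : ℝ) ≤ l * (p * g) ^ 2 := by
            exact_mod_cast sum_rd A l hA
          rw [div_le_iff₀ hg']
          calc 22 * lam * ((∑ c, (rd A c).card : ℕ) : ℝ) ≤ 22 * lam * (l * (p * g) ^ 2) :=
                mul_le_mul_of_nonneg_left h1 (by positivity)
            _ = _ := by ring
      _ ≤ _ := mul_le_mul_of_nonneg_left hS hpow.le
  have h := tail (p : ℝ) (u * p ^ 2 / 8) (3 / 8 * (u * p ^ 2)) (fun ω' => (maxcov B A ω ω' : ℝ))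
    hp' (by positivity) (by
      rw [Fintype.card_prod, Fintype.card_fin, Fintype.card_fin]
      exact Nat.mul_pos hu0 hp) hmean (fun ω' k a => maxcov_diff B A ω ω' k a)
  rw [Fintype.card_prod, Fintype.card_fin, Fintype.card_fin, Fintype.card_fin] at h
  have h2 : (u : ℝ) * p ^ 2 / 8 + 3 / 8 * (u * p ^ 2) = u * p ^ 2 / 2 := by ring
  rw [h2] at h
  refine le_trans h (le_of_eq ?_)
  congr 2
  push_cast
  field_simp
  ring

end Pool.Agent.SetIntOneSided
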