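import Mathlib

/-!
# Set intersection with indivisible elements, a directory and one-sided address lists
-/

namespace Pool.Agent.SetIntOneSided

/-- `F` is a family of finite sets with elements in `{0, …, N-1}` and of total size exactly `N`. -/
def IsFamily {ι : Type} [Fintype ι] (N : ℕ) (F : ι → Finset ℕ) : Prop :=
  (∀ i, F i ⊆ Finset.range N) ∧ ∑ i, (F i).card = N

/-- An address rule for the sets with indices in `ι`, a directory with `D` possible states and a
memory with `S` cells.  `addr d i j X t` is the address of the cell number `t` that is read on the
side of `i` in the query `{i, j}`, when the directory is in the state `d` and `X` is the set with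
index `i`.  Any function is allowed. -/
abbrev Rule (D S : ℕ) (ι : Type) : Type := Fin D → ι → ι → Finset ℕ → ℕ → Fin S

/-- The family `F` is served in time `C (T + op)`: there are a state `d` of the directory and
contents of the cells (the cell `c` holds the elements `cell c`, at most `B` of them), both chosen
knowing all of `F`, such that for every query `{i, j}` each element of `F i ∩ F j` is in one of the
first `C (T + |F i ∩ F j|)` cells of the list computed from `d, i, j` and `F i`, or in one of the
first `C (T + |F i ∩ F j|)` cells of the list computed from `d, j, i` and `F j`. -/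
def Serves {D S : ℕ} {ι : Type} (C T B : ℕ) (addr : Rule D S ι) (F : ι → Finset ℕ) : Prop :=
  ∃ (d : Fin D) (cell : Fin S → Finset ℕ), (∀ c, (cell c).card ≤ B) ∧
    ∀ i j, i ≠ j → ∀ x ∈ F i ∩ F j, ∃ t < C * (T + (F i ∩ F j).card),
      x ∈ cell (addr d i j (F i) t) ∨ x ∈ cell (addr d j i (F j) t)

/-- For every number `m ≤ N` of sets there is an address rule that serves all families of `m` sets
of total size `N`. -/
def Solvable (N D C T B S : ℕ) : Prop :=
  ∀ m ≤ N, ∃ addr : Rule D S (Fin m), ∀ F : Fin m → Finset ℕ, IsFamily N F → Serves C T B addr F

end Pool.Agent.SetIntOneSided
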