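import Pool.Agent.SetIntOneSided.Moments

/-!
# The discrepancy property of a random transversal system
-/

namespace Pool.Agent.SetIntOneSided

open Finset

variable {u p g : ℕ}

/-- `ω (x, r) = a` means that the element `x` belongs to the set number `a` of the block `r`. -/
abbrev Om (u p g : ℕ) := Fin u × Fin p → Fin g

/-- The number of incidences between the sets of `H` and the elements of `X`. -/
def inc (ω : Om u p g) (H : Finset (Fin p × Fin g)) (X : Finset (Fin u)) : ℕ :=
  (univ.filter (fun k : Fin u × Fin p => k.1 ∈ X ∧ (k.2, ω k) ∈ H)).card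

/-- No pair `H`, `X` has many more incidences than expected. -/
def Disc (lam : ℝ) (ω : Om u p g) : Prop :=
  ∀ (H : Finset (Fin p × Fin g)) (X : Finset (Fin u)),
    (inc ω H X : ℝ) ≤ 2 * (X.card * H.card) / g + 3 * lam * (H.card + X.card)

theorem card_fiber (H : Finset (Fin p × Fin g)) :
    ∑ r : Fin p, (univ.filter (fun a : Fin g => (r, a) ∈ H)).card = H.card := by
  simp_rw [card_filter]
  rw [← Fintype.sum_prod_type' (f := fun (r : Fin p) (a : Fin g) => if (r, a) ∈ H then 1 else 0)]
  simp

/-- The sets of letters for the moment lemma. -/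
def GG (H : Finset (Fin p × Fin g)) (X : Finset (Fin u)) (k : Fin u × Fin p) : Finset (Fin g) :=
  univ.filter (fun a : Fin g => k.1 ∈ X ∧ (k.2, a) ∈ H)

theorem inc_eq (ω : Om u p g) (H : Finset (Fin p × Fin g)) (X : Finset (Fin u)) :
    inc ω H X = (univ.filter (fun k : Fin u × Fin p => ω k ∈ GG H X k)).card := by
  unfold inc GG
  simp

theorem sum_card_GG (H : Finset (Fin p × Fin g)) (X : Finset (Fin u)) :
    ∑ k : Fin u × Fin p, ((GG H X k).card : ℝ) = X.card * H.card := by
  rw [← Nat.cast_sum, ← Nat.cast_mul]
  congr 1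
  rw [Fintype.sum_prod_type]
  have h1 : ∀ x : Fin u, ∑ r : Fin p, (GG H X (x, r)).card = if x ∈ X then H.card else 0 := by
    intro x
    split_ifs with h
    · rw [← card_fiber H]
      refine sum_congr rfl (fun r _ => ?_)
      unfold GG
      simp [h]
    · unfold GG
      simp [h]
  simp_rw [h1]
  simp

theorem inc_tail (hg : 0 < g) (H : Finset (Fin p × Fin g)) (X : Finset (Fin u)) (s : ℝ) :
    ((univ.filter (fun ω : Om u p g => 2 * (X.card * H.card) / g + s ≤ (inc ω H X : ℝ))).card : ℝ)
      ≤ (g : ℝ) ^ (u * p) * Real.exp (-s) := by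
  have h := count_tail hg (GG H X) (2 * (X.card * H.card) / g + s)
  rw [sum_card_GG] at h
  simp_rw [inc_eq]
  rw [Fintype.card_prod, Fintype.card_fin, Fintype.card_fin] at h
  refine le_trans h (le_of_eq ?_)
  congr 2
  ring

theorem sum_exp_card {α : Type*} [Fintype α] [DecidableEq α] (lam : ℝ)
    (h : (Fintype.card α : ℝ) ≤ Real.exp lam) (hl : 0 ≤ lam) :
    ∑ H : Finset α, Real.exp (-(2 * lam * H.card)) ≤ Real.exp 1 := by
  have h1 : ∀ H : Finset α, Real.exp (-(2 * lam * H.card)) =
      Real.exp (-(2 * lam)) ^ H.card * 1 ^ (Fintype.card α - H.card) := by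
    intro H
    rw [one_pow, mul_one, ← Real.exp_nat_mul]
    congr 1
    ring
  simp_rw [h1]
  have h2 : ∑ H : Finset α, Real.exp (-(2 * lam)) ^ H.card * 1 ^ (Fintype.card α - H.card) =
      (Real.exp (-(2 * lam)) + 1) ^ Fintype.card α := by
    have := Finset.sum_pow_mul_eq_add_pow (Real.exp (-(2 * lam))) 1 (univ : Finset α)
    rw [powerset_univ, card_univ] at this
    exact this
  rw [h2]
  calc (Real.exp (-(2 * lam)) + 1) ^ Fintype.card α
      ≤ (Real.exp (Real.exp (-(2 * lam)))) ^ Fintype.card α := by
        apply pow_le_pow_left₀ (by positivity)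
        exact Real.add_one_le_exp _
    _ = Real.exp (Fintype.card α * Real.exp (-(2 * lam))) := by
        rw [← Real.exp_nat_mul]
    _ ≤ Real.exp 1 := by
        apply Real.exp_le_exp.2
        calc (Fintype.card α : ℝ) * Real.exp (-(2 * lam))
            ≤ Real.exp lam * Real.exp (-(2 * lam)) :=
              mul_le_mul_of_nonneg_right h (Real.exp_pos _).le
          _ = Real.exp (-lam) := by
              rw [← Real.exp_add]
              congr 1
              ring
          _ ≤ 1 := by
              rw [← Real.exp_zero]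
              exact Real.exp_le_exp.2 (by linarith)

open Classical in
/-- Most systems have the discrepancy property. -/
theorem card_not_disc (hg : 0 < g) (lam : ℝ) (hl : 5 ≤ lam) (h1 : (p * g : ℝ) ≤ Real.exp lam)
    (h2 : (u : ℝ) ≤ Real.exp lam) :
    ((univ.filter (fun ω : Om u p g => ¬ Disc lam ω)).card : ℝ) ≤ (g : ℝ) ^ (u * p) / 8 := by
  have hsub : univ.filter (fun ω : Om u p g => ¬ Disc lam ω) ⊆
      (univ : Finset (Finset (Fin p × Fin g) × Finset (Fin u))).biUnion (fun HX =>
        if HX.2.Nonempty then
          univ.filter (fun ω : Om u p g => 2 * (HX.2.card * HX.1.card) / g +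
            3 * lam * (HX.1.card + HX.2.card) ≤ (inc ω HX.1 HX.2 : ℝ)) else ∅) := by
    intro ω hω
    rw [mem_filter] at hω
    have h3 := hω.2
    unfold Disc at h3
    push Not at h3
    obtain ⟨H, X, hHX⟩ := h3
    rw [mem_biUnion]
    refine ⟨(H, X), mem_univ _, ?_⟩
    have hX : X.Nonempty := by
      by_contra hX
      rw [not_nonempty_iff_eq_empty] at hX
      subst hX
      have : inc ω H ∅ = 0 := by simp [inc]
      rw [this] at hHX
      simp only [card_empty, Nat.cast_zero, zero_mul, mul_zero, zero_div, add_zero, zero_add] at hHX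
      have : 0 ≤ 3 * lam * (H.card : ℝ) := by positivity
      linarith
    rw [if_pos hX, mem_filter]
    exact ⟨mem_univ _, hHX.le⟩
  have hg' : (0 : ℝ) ≤ (g : ℝ) ^ (u * p) := by positivity
  calc ((univ.filter (fun ω : Om u p g => ¬ Disc lam ω)).card : ℝ)
      ≤ ∑ HX : Finset (Fin p × Fin g) × Finset (Fin u), (((if HX.2.Nonempty then
          univ.filter (fun ω : Om u p g => 2 * (HX.2.card * HX.1.card) / g +
            3 * lam * (HX.1.card + HX.2.card) ≤ (inc ω HX.1 HX.2 : ℝ)) else ∅ :
            Finset (Om u p g)).card : ℕ) : ℝ) := by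
        rw [← Nat.cast_sum]
        exact Nat.cast_le.2 (le_trans (card_le_card hsub) card_biUnion_le)
    _ ≤ ∑ HX : Finset (Fin p × Fin g) × Finset (Fin u), (g : ℝ) ^ (u * p) *
          (Real.exp (-lam) * (Real.exp (-(2 * lam * HX.1.card)) *
            Real.exp (-(2 * lam * HX.2.card)))) := by
        refine sum_le_sum (fun HX _ => ?_)
        split_ifs with hX
        · refine le_trans (inc_tail hg HX.1 HX.2 _) ?_
          apply mul_le_mul_of_nonneg_left _ hg'
          rw [← Real.exp_add, ← Real.exp_add]
          apply Real.exp_le_exp.2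
          have h4 : (1 : ℝ) ≤ HX.2.card := by exact_mod_cast hX.card_pos
          have h5 : (0 : ℝ) ≤ HX.1.card := by positivity
          nlinarith
        · rw [card_empty, Nat.cast_zero]
          positivity
    _ = (g : ℝ) ^ (u * p) * Real.exp (-lam) *
          ((∑ H : Finset (Fin p × Fin g), Real.exp (-(2 * lam * H.card))) *
            (∑ X : Finset (Fin u), Real.exp (-(2 * lam * X.card)))) := by
        rw [← mul_sum, ← mul_sum, sum_mul_sum, Fintype.sum_prod_type]
        ring
    _ ≤ (g : ℝ) ^ (u * p) * Real.exp (-5) * (Real.exp 1 * Real.exp 1) := by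
        have h6 : ∑ H : Finset (Fin p × Fin g), Real.exp (-(2 * lam * H.card)) ≤ Real.exp 1 := by
          apply sum_exp_card lam _ (by linarith)
          rw [Fintype.card_prod, Fintype.card_fin, Fintype.card_fin]
          push_cast
          exact h1
        have h7 : ∑ X : Finset (Fin u), Real.exp (-(2 * lam * X.card)) ≤ Real.exp 1 := by
          apply sum_exp_card lam _ (by linarith)
          rw [Fintype.card_fin]
          exact h2
        have h8 : Real.exp (-lam) ≤ Real.exp (-5) := Real.exp_le_exp.2 (by linarith)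
        apply mul_le_mul _ _ _ (by positivity)
        · exact mul_le_mul_of_nonneg_left h8 hg'
        · exact mul_le_mul h6 h7 (sum_nonneg fun _ _ => (Real.exp_pos _).le) (Real.exp_pos _).le
        · exact mul_nonneg (sum_nonneg fun _ _ => (Real.exp_pos _).le)
            (sum_nonneg fun _ _ => (Real.exp_pos _).le)
    _ = (g : ℝ) ^ (u * p) * Real.exp (-3) := by
        rw [mul_assoc, ← Real.exp_add, ← Real.exp_add]
        norm_num
    _ ≤ (g : ℝ) ^ (u * p) / 8 := by
        have h9 : Real.exp (-3) ≤ 1 / 8 := by
          rw [Real.exp_neg, inv_eq_one_div]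
          apply one_div_le_one_div_of_le (by norm_num)
          have h10 : (2 : ℝ) ≤ Real.exp 1 := by
            have := Real.add_one_le_exp (1 : ℝ)
            linarith
          have h11 : Real.exp 3 = Real.exp 1 ^ 3 := by
            rw [← Real.exp_nat_mul]
            norm_num
          rw [h11]
          calc (8 : ℝ) = 2 ^ 3 := by norm_num
            _ ≤ Real.exp 1 ^ 3 := pow_le_pow_left₀ (by norm_num) h10 3
        calc (g : ℝ) ^ (u * p) * Real.exp (-3) ≤ (g : ℝ) ^ (u * p) * (1 / 8) :=
              mul_le_mul_of_nonneg_left h9 hg'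
          _ = _ := by ring

end Pool.Agent.SetIntOneSided
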