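import Pool.Agent.SetIntOneSided.Main

/-!
# Assembly
-/

namespace Pool.Agent.SetIntOneSided

open Finset

variable {u p g : ℕ}

/-- The cells read on the side of the index `e i` against `e' j`. -/
def ls {D S : ℕ} (addr : Rule D S (Option (Bool × Ix p g))) (l : ℕ) (b : Bool) (d : Fin D)
    (ω : Om u p g) (i j : Ix p g) : Finset (Fin S) :=
  (range l).image (fun t => addr d (some (b, i)) (some (!b, j)) ((st ω i).map Fin.valEmbedding) t)

theorem card_ls {D S : ℕ} (addr : Rule D S (Option (Bool × Ix p g))) (l : ℕ) (b : Bool)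
    (d : Fin D) (ω : Om u p g) (i j : Ix p g) : (ls addr l b d ω i j).card ≤ l := by
  unfold ls
  refine le_trans card_image_le ?_
  rw [card_range]

/-- If a family is served and its intersections are small, one side covers half of the triples. -/
theorem half_cov {N D C T B S θ : ℕ} (addr : Rule D S (Option (Bool × Ix p g)))
    (ω ω' : Om u p g) (hs : Serves C T B addr (fam N ω ω'))
    (hop : ∀ i j, op ω ω' i j ≤ θ) :
    ∃ d : Fin D, u * p ^ 2 ≤ maxcov B (ls addr (C * (T + θ)) false d ω) ω ω' +
      maxcov B (ls addr (C * (T + θ)) true d ω') ω' ω := by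
  obtain ⟨d, cell, hc, hq⟩ := hs
  refine ⟨d, ?_⟩
  let cell' : Fin S → Finset (Fin u) := fun c => univ.filter (fun x => (x : ℕ) ∈ cell c)
  have hc' : ∀ c, (cell' c).card ≤ B := by
    intro c
    refine le_trans ?_ (hc c)
    apply card_le_card_of_injOn Fin.val
    · intro x hx
      simpa [cell'] using hx
    · exact Fin.val_injective.injOn
  have h1 : cov (ls addr (C * (T + θ)) false d ω) cell' ω ω' ≤
      maxcov B (ls addr (C * (T + θ)) false d ω) ω ω' := by
    unfold maxcov
    exact le_sup (f := fun cell => cov (ls addr (C * (T + θ)) false d ω) cell ω ω')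
      (mem_filter.2 ⟨mem_univ _, hc'⟩)
  have h2 : cov (ls addr (C * (T + θ)) true d ω') cell' ω' ω ≤
      maxcov B (ls addr (C * (T + θ)) true d ω') ω' ω := by
    unfold maxcov
    exact le_sup (f := fun cell => cov (ls addr (C * (T + θ)) true d ω') cell ω' ω)
      (mem_filter.2 ⟨mem_univ _, hc'⟩)
  refine le_trans ?_ (Nat.add_le_add h1 h2)
  have huniv : (univ : Finset (Fin u × Fin p × Fin p)) ⊆
      univ.filter (fun q : Fin u × Fin p × Fin p =>
        ∃ c ∈ ls addr (C * (T + θ)) false d ω (q.2.1, ω (q.1, q.2.1)) (q.2.2, ω' (q.1, q.2.2)),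
          q.1 ∈ cell' c) ∪
      (univ.filter (fun q : Fin u × Fin p × Fin p =>
        ∃ c ∈ ls addr (C * (T + θ)) true d ω' (q.2.1, ω' (q.1, q.2.1)) (q.2.2, ω (q.1, q.2.2)),
          q.1 ∈ cell' c)).image (fun q => (q.1, q.2.2, q.2.1)) := by
    intro q _
    rw [mem_union, mem_filter, mem_image]
    set i : Ix p g := (q.2.1, ω (q.1, q.2.1)) with hi
    set j : Ix p g := (q.2.2, ω' (q.1, q.2.2)) with hj
    have hint : (fam N ω ω' (some (false, i)) ∩ fam N ω ω' (some (true, j))).card = op ω ω' i j := by
      simp only [fam]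
      rw [← map_inter, card_map]
      rfl
    obtain ⟨t, ht, hx⟩ := hq (some (false, i)) (some (true, j)) (by simp) (q.1 : ℕ) (by
      rw [mem_inter]
      simp only [fam, mem_map, Fin.valEmbedding_apply]
      constructor
      · exact ⟨q.1, by simp [st, hi], rfl⟩
      · exact ⟨q.1, by simp [st, hj], rfl⟩)
    rw [hint] at ht
    have ht' : t < C * (T + θ) := by
      refine lt_of_lt_of_le ht (Nat.mul_le_mul_left _ ?_)
      have := hop i j
      omega
    rcases hx with hx | hx
    · left
      refine ⟨mem_univ _, addr d (some (false, i)) (some (true, j))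
        ((st ω i).map Fin.valEmbedding) t, ?_, ?_⟩
      · unfold ls
        rw [mem_image]
        exact ⟨t, mem_range.2 ht', rfl⟩
      · simp only [cell', mem_filter, mem_univ, true_and]
        exact hx
    · right
      refine ⟨(q.1, q.2.2, q.2.1), ?_, rfl⟩
      rw [mem_filter]
      refine ⟨mem_univ _, addr d (some (true, j)) (some (false, i))
        ((st ω' j).map Fin.valEmbedding) t, ?_, ?_⟩
      · unfold ls
        rw [mem_image]
        exact ⟨t, mem_range.2 ht', rfl⟩
      · simp only [cell', mem_filter, mem_univ, true_and]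
        exact hx
  calc u * p ^ 2 = (univ : Finset (Fin u × Fin p × Fin p)).card := by
        rw [card_univ, Fintype.card_prod, Fintype.card_prod, Fintype.card_fin, Fintype.card_fin]
        ring
    _ ≤ _ := card_le_card huniv
    _ ≤ _ := card_union_le _ _
    _ ≤ _ := Nat.add_le_add_left card_image_le _

open Classical in
/-- The main lower bound with all parameters. -/
theorem core {N D C T B S θ : ℕ} {lam : ℝ} (H : Solvable N D C T B S) (hg : 2 ≤ g)
    (hu : 0 < u) (hp : 0 < p) (hl : 5 ≤ lam) (h1 : (p * g : ℝ) ≤ Real.exp lam)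
    (h2 : (u : ℝ) ≤ Real.exp lam) (hθ : 2 * lam + 4 * u / g ^ 2 + 3 ≤ θ)
    (hN : 2 * (u * p) ≤ N) (hm : 2 * (p * g) + 1 ≤ N)
    (hD : 2 * (D : ℝ) * Real.exp (-(9 / 256 * (u * p))) < 5 / 8)
    (hS : (B : ℝ) * (22 * lam * (C * (T + θ) : ℕ) * p ^ 2 * g + 12 * lam ^ 2 * S) ≤
      u * p ^ 2 / 8) : False := by
  have hg0 : 0 < g := by omega
  obtain ⟨addr, ha⟩ := of_fintype H (Option (Bool × Ix p g)) (by
    rw [Fintype.card_option, Fintype.card_prod, Fintype.card_prod, Fintype.card_fin,
      Fintype.card_fin, Fintype.card_bool]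
    omega)
  set G : ℝ := (g : ℝ) ^ (u * p) with hG
  have hGpos : 0 < G := by positivity
  have hcard : (Fintype.card (Om u p g) : ℝ) = G := by
    rw [Fintype.card_fun, Fintype.card_prod, Fintype.card_fin, Fintype.card_fin, Fintype.card_fin]
    push_cast
    rfl
  set ε : ℝ := Real.exp (-(9 / 256 * (u * p))) with hε
  set l := C * (T + θ) with hldef
  -- the bad sets
  let B1 : Finset (Om u p g × Om u p g) :=
    univ.filter (fun q => ∃ i j, (θ : ℝ) < (op q.1 q.2 i j : ℝ))
  let B2 : Finset (Om u p g × Om u p g) := (univ.filter (fun ω => ¬ Disc lam ω)) ×ˢ univ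
  let B3 : Finset (Om u p g × Om u p g) := univ ×ˢ (univ.filter (fun ω => ¬ Disc lam ω))
  let E : Fin D → Finset (Om u p g × Om u p g) := fun d => univ.filter (fun q =>
    Disc lam q.1 ∧ (u * p ^ 2 / 2 : ℝ) ≤ maxcov B (ls addr l false d q.1) q.1 q.2)
  let E' : Fin D → Finset (Om u p g × Om u p g) := fun d => univ.filter (fun q =>
    Disc lam q.2 ∧ (u * p ^ 2 / 2 : ℝ) ≤ maxcov B (ls addr l true d q.2) q.2 q.1)
  have c1 : (B1.card : ℝ) ≤ G * G / 8 := card_op hg h1 hθ
  have c0 := card_not_disc (u := u) hg0 lam hl h1 h2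
  have c2 : (B2.card : ℝ) ≤ G * G / 8 := by
    simp only [B2]
    rw [card_product, card_univ, Nat.cast_mul, hcard]
    calc _ ≤ G / 8 * G := mul_le_mul_of_nonneg_right c0 hGpos.le
      _ = _ := by ring
  have c3 : (B3.card : ℝ) ≤ G * G / 8 := by
    simp only [B3]
    rw [card_product, card_univ, Nat.cast_mul, hcard]
    calc _ ≤ G * (G / 8) := mul_le_mul_of_nonneg_left c0 hGpos.le
      _ = _ := by ring
  have c4 : ∀ d, ((E d).card : ℝ) ≤ G * G * ε := by
    intro d
    have h3 : (E d).card = ∑ ω : Om u p g, (univ.filter (fun ω' : Om u p g =>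
        Disc lam ω ∧ (u * p ^ 2 / 2 : ℝ) ≤ maxcov B (ls addr l false d ω) ω ω')).card := by
      simp only [E]
      simp_rw [card_filter]
      rw [Fintype.sum_prod_type]
    rw [h3, Nat.cast_sum]
    calc ∑ ω : Om u p g, ((univ.filter (fun ω' : Om u p g =>
        Disc lam ω ∧ (u * p ^ 2 / 2 : ℝ) ≤ maxcov B (ls addr l false d ω) ω ω')).card : ℝ)
        ≤ ∑ _ω : Om u p g, G * ε := by
          refine sum_le_sum (fun ω _ => ?_)
          by_cases hω : Disc lam ω
          · have h4 := few_covered hg0 hu hp (by linarith) h2 B l (ls addr l false d ω)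
              (card_ls addr l false d ω) ω hω hS
            refine le_trans (Nat.cast_le.2 (card_le_card ?_)) h4
            intro ω' h
            rw [mem_filter] at h ⊢
            exact ⟨mem_univ _, h.2.2⟩
          · have : univ.filter (fun ω' : Om u p g =>
                Disc lam ω ∧ (u * p ^ 2 / 2 : ℝ) ≤ maxcov B (ls addr l false d ω) ω ω') = ∅ := by
              apply filter_eq_empty_iff.2
              intro ω' _ h
              exact hω h.1
            rw [this, card_empty, Nat.cast_zero]
            positivity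
      _ = G * G * ε := by
          rw [sum_const, card_univ, nsmul_eq_mul, hcard]
          ring
  have c5 : ∀ d, ((E' d).card : ℝ) ≤ G * G * ε := by
    intro d
    have h3 : (E' d).card = ∑ ω' : Om u p g, (univ.filter (fun ω : Om u p g =>
        Disc lam ω' ∧ (u * p ^ 2 / 2 : ℝ) ≤ maxcov B (ls addr l true d ω') ω' ω)).card := by
      simp only [E']
      simp_rw [card_filter]
      rw [Fintype.sum_prod_type, sum_comm]
    rw [h3, Nat.cast_sum]
    calc ∑ ω' : Om u p g, ((univ.filter (fun ω : Om u p g =>
        Disc lam ω' ∧ (u * p ^ 2 / 2 : ℝ) ≤ maxcov B (ls addr l true d ω') ω' ω)).card : ℝ)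
        ≤ ∑ _ω' : Om u p g, G * ε := by
          refine sum_le_sum (fun ω' _ => ?_)
          by_cases hω : Disc lam ω'
          · have h4 := few_covered hg0 hu hp (by linarith) h2 B l (ls addr l true d ω')
              (card_ls addr l true d ω') ω' hω hS
            refine le_trans (Nat.cast_le.2 (card_le_card ?_)) h4
            intro ω h
            rw [mem_filter] at h ⊢
            exact ⟨mem_univ _, h.2.2⟩
          · have : univ.filter (fun ω : Om u p g =>
                Disc lam ω' ∧ (u * p ^ 2 / 2 : ℝ) ≤ maxcov B (ls addr l true d ω') ω' ω) = ∅ := by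
              apply filter_eq_empty_iff.2
              intro ω _ h
              exact hω h.1
            rw [this, card_empty, Nat.cast_zero]
            positivity
      _ = G * G * ε := by
          rw [sum_const, card_univ, nsmul_eq_mul, hcard]
          ring
  -- everything is bad
  have hall : (univ : Finset (Om u p g × Om u p g)) ⊆
      (B1 ∪ (B2 ∪ B3)) ∪ ((univ : Finset (Fin D)).biUnion E ∪ (univ : Finset (Fin D)).biUnion E') := by
    intro q _
    by_cases hb1 : ∃ i j, (θ : ℝ) < (op q.1 q.2 i j : ℝ)
    · apply mem_union_left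
      apply mem_union_left
      exact mem_filter.2 ⟨mem_univ _, hb1⟩
    by_cases hb2 : Disc lam q.1
    swap
    · apply mem_union_left
      apply mem_union_right
      apply mem_union_left
      rw [mem_product]
      exact ⟨mem_filter.2 ⟨mem_univ _, hb2⟩, mem_univ _⟩
    by_cases hb3 : Disc lam q.2
    swap
    · apply mem_union_left
      apply mem_union_right
      apply mem_union_right
      rw [mem_product]
      exact ⟨mem_univ _, mem_filter.2 ⟨mem_univ _, hb3⟩⟩
    push Not at hb1
    obtain ⟨d, hd⟩ := half_cov addr q.1 q.2 (ha _ (isFamily_fam hN hp q.1 q.2))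
      (fun i j => by exact_mod_cast hb1 i j)
    rw [← hldef] at hd
    have hd' : (u : ℝ) * p ^ 2 ≤ maxcov B (ls addr l false d q.1) q.1 q.2 +
        maxcov B (ls addr l true d q.2) q.2 q.1 := by exact_mod_cast hd
    apply mem_union_right
    by_cases h5 : (u * p ^ 2 / 2 : ℝ) ≤ maxcov B (ls addr l false d q.1) q.1 q.2
    · apply mem_union_left
      rw [mem_biUnion]
      exact ⟨d, mem_univ _, mem_filter.2 ⟨mem_univ _, hb2, h5⟩⟩
    · apply mem_union_right
      rw [mem_biUnion]
      refine ⟨d, mem_univ _, mem_filter.2 ⟨mem_univ _, hb3, ?_⟩⟩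
      linarith
  have htot : G * G ≤ (G * G / 8 + (G * G / 8 + G * G / 8)) + (D * (G * G * ε) + D * (G * G * ε)) := by
    have h6 : G * G = ((univ : Finset (Om u p g × Om u p g)).card : ℝ) := by
      rw [card_univ, Fintype.card_prod, Nat.cast_mul, hcard]
    have h7 : (((univ : Finset (Fin D)).biUnion E).card : ℝ) ≤ D * (G * G * ε) := by
      calc (((univ : Finset (Fin D)).biUnion E).card : ℝ) ≤ ((∑ d, (E d).card : ℕ) : ℝ) :=
            Nat.cast_le.2 card_biUnion_le
        _ = ∑ d, ((E d).card : ℝ) := by rw [Nat.cast_sum]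
        _ ≤ ∑ _d : Fin D, G * G * ε := sum_le_sum (fun d _ => c4 d)
        _ = _ := by rw [sum_const, card_univ, Fintype.card_fin, nsmul_eq_mul]
    have h8 : (((univ : Finset (Fin D)).biUnion E').card : ℝ) ≤ D * (G * G * ε) := by
      calc (((univ : Finset (Fin D)).biUnion E').card : ℝ) ≤ ((∑ d, (E' d).card : ℕ) : ℝ) :=
            Nat.cast_le.2 card_biUnion_le
        _ = ∑ d, ((E' d).card : ℝ) := by rw [Nat.cast_sum]
        _ ≤ ∑ _d : Fin D, G * G * ε := sum_le_sum (fun d _ => c5 d)
        _ = _ := by rw [sum_const, card_univ, Fintype.card_fin, nsmul_eq_mul]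
    have h9 : ((univ : Finset (Om u p g × Om u p g)).card : ℝ) ≤
        ((B1.card : ℝ) + (B2.card + B3.card)) +
          (((univ : Finset (Fin D)).biUnion E).card + ((univ : Finset (Fin D)).biUnion E').card) := by
      have h10 := le_trans (card_le_card hall) (card_union_le _ _)
      have h11 := card_union_le B1 (B2 ∪ B3)
      have h12 := card_union_le B2 B3
      have h13 := card_union_le ((univ : Finset (Fin D)).biUnion E)
        ((univ : Finset (Fin D)).biUnion E')
      exact_mod_cast (by omega : (univ : Finset (Om u p g × Om u p g)).card ≤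
        (B1.card + (B2.card + B3.card)) +
          (((univ : Finset (Fin D)).biUnion E).card + ((univ : Finset (Fin D)).biUnion E').card))
    rw [← h6] at h9
    linarith
  have hGG : 0 < G * G := by positivity
  have h10 : D * (G * G * ε) + D * (G * G * ε) = G * G * (2 * D * ε) := by ring
  rw [h10] at htot
  have h11 := mul_lt_mul_of_pos_left hD hGG
  linarith

end Pool.Agent.SetIntOneSided
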