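import Pool.Agent.SetIntOneSided.Defs
import Pool.Agent.SetIntOneSided.Cover

/-!
# The lower bound
-/

namespace Pool.Agent.SetIntOneSided

open Finset

/-- Passage to families indexed by an arbitrary finite type. -/
theorem of_fintype {N D C T B S : ℕ} (H : Solvable N D C T B S) (ι : Type) [Fintype ι]
    (hι : Fintype.card ι ≤ N) :
    ∃ addr : Rule D S ι, ∀ F : ι → Finset ℕ, IsFamily N F → Serves C T B addr F := by
  classical
  obtain ⟨addr, ha⟩ := H (Fintype.card ι) hι
  let e := Fintype.equivFin ι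
  refine ⟨fun d i j X t => addr d (e i) (e j) X t, fun F hF => ?_⟩
  obtain ⟨d, cell, hc, hq⟩ := ha (fun k => F (e.symm k)) ⟨fun i => hF.1 _, by
    rw [← hF.2]
    exact Equiv.sum_comp e.symm (fun i => (F i).card)⟩
  refine ⟨d, cell, hc, fun i j hij x hx => ?_⟩
  have := hq (e i) (e j) (fun h => hij (e.injective h)) x (by simpa using hx)
  simpa using this

/-- The space is at least `N / 2`. -/
theorem half_le {N D C T B S : ℕ} (H : Solvable N D C T B S) (hN : 2 ≤ N) : N / 2 ≤ S * B := by
  obtain ⟨addr, ha⟩ := H 2 hN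
  obtain ⟨d, cell, hc, hq⟩ := ha ![range (N / 2), range (N - N / 2)] ⟨by
    intro i
    fin_cases i
    · exact range_subset_range.2 (Nat.div_le_self _ _)
    · exact range_subset_range.2 (Nat.sub_le _ _), by
    rw [Fin.sum_univ_two]
    simp only [Matrix.cons_val, card_range]
    omega⟩
  have h0 := hq 0 1 (by decide)
  simp only [Matrix.cons_val] at h0
  have h1 : range (N / 2) ⊆ (univ : Finset (Fin S)).biUnion cell := by
    intro x hx
    rw [mem_range] at hx
    obtain ⟨t, _, ht⟩ := h0 x (by
      rw [mem_inter, mem_range, mem_range]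
      omega)
    rw [mem_biUnion]
    rcases ht with ht | ht
    · exact ⟨_, mem_univ _, ht⟩
    · exact ⟨_, mem_univ _, ht⟩
  calc N / 2 = (range (N / 2)).card := (card_range _).symm
    _ ≤ ((univ : Finset (Fin S)).biUnion cell).card := card_le_card h1
    _ ≤ ∑ q : Fin S, (cell q).card := card_biUnion_le
    _ ≤ ∑ _q : Fin S, B := sum_le_sum (fun q _ => hc q)
    _ = S * B := by rw [sum_const, smul_eq_mul, card_univ, Fintype.card_fin]

variable {u p g : ℕ}

/-- The set with index `i`. -/
def st (ω : Om u p g) (i : Ix p g) : Finset (Fin u) := univ.filter (fun x => ω (x, i.1) = i.2)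

/-- The family of sets. -/
def fam (N : ℕ) (ω ω' : Om u p g) : Option (Bool × Ix p g) → Finset ℕ
  | none => range (N - 2 * (u * p))
  | some (false, i) => (st ω i).map Fin.valEmbedding
  | some (true, j) => (st ω' j).map Fin.valEmbedding

theorem sum_st (ω : Om u p g) : ∑ i, (st ω i).card = u * p := by
  rw [Fintype.sum_prod_type]
  have h1 : ∀ r : Fin p, ∑ a : Fin g, (st ω (r, a)).card = u := by
    intro r
    unfold st
    simp_rw [card_filter]
    rw [sum_comm]
    simp
  simp_rw [h1]
  rw [sum_const, card_univ, Fintype.card_fin, smul_eq_mul, mul_comm]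

theorem isFamily_fam {N : ℕ} (hN : 2 * (u * p) ≤ N) (hp : 0 < p) (ω ω' : Om u p g) :
    IsFamily N (fam N ω ω') := by
  have huN : u ≤ N := by
    calc u ≤ u * p := Nat.le_mul_of_pos_right _ hp
      _ ≤ N := by omega
  constructor
  · have h : ∀ (ω : Om u p g) i, (st ω i).map Fin.valEmbedding ⊆ range N := by
      intro ω i x hx
      rw [mem_map] at hx
      obtain ⟨y, _, rfl⟩ := hx
      rw [mem_range]
      exact lt_of_lt_of_le y.isLt huN
    intro o
    rcases o with _ | ⟨b, i⟩
    · exact range_subset_range.2 (Nat.sub_le _ _)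
    · cases b
      · exact h ω i
      · exact h ω' i
  · rw [Fintype.sum_option, Fintype.sum_prod_type]
    simp only [Fintype.sum_bool, fam, card_range, card_map]
    rw [sum_st, sum_st]
    omega

/-- Intersection size. -/
def op (ω ω' : Om u p g) (i j : Ix p g) : ℕ := (st ω i ∩ st ω' j).card

theorem op_moment (hg : 2 ≤ g) (i j : Ix p g) :
    ∑ ω : Om u p g, ∑ ω' : Om u p g, Real.exp (op ω ω' i j : ℝ) ≤
      (g : ℝ) ^ (u * p) * (g : ℝ) ^ (u * p) * Real.exp (4 * u / g ^ 2) := by
  have hg0 : 0 < g := by omega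
  have hg' : (0 : ℝ) < g := by exact_mod_cast hg0
  have hg2 : (2 : ℝ) ≤ g := by exact_mod_cast hg
  -- given `ω`
  have h1 : ∀ ω : Om u p g, ∑ ω' : Om u p g, Real.exp (op ω ω' i j : ℝ) ≤
      (g : ℝ) ^ (u * p) * Real.exp (2 / g) ^ (st ω i).card := by
    intro ω
    let G : Fin u × Fin p → Finset (Fin g) := fun k =>
      univ.filter (fun a => k.2 = j.1 ∧ a = j.2 ∧ ω (k.1, i.1) = i.2)
    have hG : ∀ ω' : Om u p g, op ω ω' i j = (univ.filter (fun k => ω' k ∈ G k)).card := by
      intro ω'
      unfold op st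
      rw [← filter_and]
      simp only [G, mem_filter, mem_univ, true_and]
      apply card_bij (fun x _ => (x, j.1))
      · intro x hx
        rw [mem_filter] at hx ⊢
        exact ⟨mem_univ _, rfl, hx.2.2, hx.2.1⟩
      · intro x _ y _ h
        exact congrArg Prod.fst h
      · intro k hk
        rw [mem_filter] at hk
        obtain ⟨_, h1, h2, h3⟩ := hk
        refine ⟨k.1, ?_, ?_⟩
        · rw [mem_filter]
          refine ⟨mem_univ _, h3, ?_⟩
          rw [← h1]
          exact h2
        · rw [← h1]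
    have hsum : ∑ k, ((G k).card : ℝ) = (st ω i).card := by
      rw [← Nat.cast_sum]
      congr 1
      rw [Fintype.sum_prod_type]
      unfold st
      rw [card_filter]
      refine sum_congr rfl (fun x _ => ?_)
      simp only [G]
      rw [sum_eq_single j.1]
      · by_cases h : ω (x, i.1) = i.2
        · simp [h, filter_eq']
        · simp [h]
      · intro r _ hr
        simp [hr]
      · simp
    simp_rw [hG]
    have h := moment_exp hg0 G
    rw [hsum, Fintype.card_prod, Fintype.card_fin, Fintype.card_fin] at h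
    refine le_trans h (le_of_eq ?_)
    rw [← Real.exp_nat_mul]
    congr 2
    ring
  refine le_trans (sum_le_sum (fun ω _ => h1 ω)) ?_
  rw [← mul_sum]
  have h2 : ∑ ω : Om u p g, Real.exp (2 / g) ^ (st ω i).card ≤
      (g : ℝ) ^ (u * p) * Real.exp (4 * u / g ^ 2) := by
    let G : Fin u × Fin p → Finset (Fin g) := fun k =>
      univ.filter (fun a => k.2 = i.1 ∧ a = i.2)
    have hG : ∀ ω : Om u p g, (st ω i).card = (univ.filter (fun k => ω k ∈ G k)).card := by
      intro ω
      unfold st
      simp only [G, mem_filter, mem_univ, true_and]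
      apply card_bij (fun x _ => (x, i.1))
      · intro x hx
        rw [mem_filter] at hx ⊢
        exact ⟨mem_univ _, rfl, hx.2⟩
      · intro x _ y _ h
        exact congrArg Prod.fst h
      · intro k hk
        rw [mem_filter] at hk
        obtain ⟨_, h1, h2⟩ := hk
        refine ⟨k.1, ?_, ?_⟩
        · rw [mem_filter]
          refine ⟨mem_univ _, ?_⟩
          rw [← h1]
          exact h2
        · rw [← h1]
    have hsum : ∑ k, ((G k).card : ℝ) = u := by
      rw [← Nat.cast_sum]
      congr 1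
      rw [Fintype.sum_prod_type]
      have : ∀ x : Fin u, ∑ r : Fin p, (G (x, r)).card = 1 := by
        intro x
        simp only [G]
        rw [sum_eq_single i.1]
        · simp [filter_eq']
        · intro r _ hr
          simp [hr]
        · simp
      simp_rw [this]
      simp
    simp_rw [hG]
    have h := moment hg0 G (Real.exp (2 / g)) (by
      rw [← Real.exp_zero]
      exact Real.exp_le_exp.2 (by positivity))
    rw [hsum, Fintype.card_prod, Fintype.card_fin, Fintype.card_fin] at h
    refine le_trans h ?_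
    apply mul_le_mul_of_nonneg_left _ (by positivity)
    apply Real.exp_le_exp.2
    have h3 : Real.exp (2 / g) - 1 ≤ 4 / g := by
      have h4 : |(2 : ℝ) / g| ≤ 1 := by
        rw [abs_of_pos (by positivity), div_le_one hg']
        exact hg2
      have h5 := (abs_le.1 (Real.abs_exp_sub_one_sub_id_le h4)).2
      have h6 : ((2 : ℝ) / g) ^ 2 ≤ 2 / g := by
        have h7 : (2 : ℝ) / g ≤ 1 := by
          rw [div_le_one hg']
          exact hg2
        have h8 : (0 : ℝ) ≤ 2 / g := by positivity
        nlinarith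
      have h9 : (4 : ℝ) / g = 2 / g + 2 / g := by ring
      linarith
    calc (Real.exp (2 / g) - 1) * (u : ℝ) / g ≤ 4 / g * u / g := by
          apply div_le_div_of_nonneg_right _ hg'.le
          exact mul_le_mul_of_nonneg_right h3 (by positivity)
      _ = 4 * u / g ^ 2 := by ring
  calc (g : ℝ) ^ (u * p) * ∑ ω : Om u p g, Real.exp (2 / g) ^ (st ω i).card
      ≤ (g : ℝ) ^ (u * p) * ((g : ℝ) ^ (u * p) * Real.exp (4 * u / g ^ 2)) :=
        mul_le_mul_of_nonneg_left h2 (by positivity)
    _ = _ := by ring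

theorem exp_neg_three : Real.exp (-3) ≤ 1 / 8 := by
  rw [Real.exp_neg, inv_eq_one_div]
  apply one_div_le_one_div_of_le (by norm_num)
  have h10 : (2 : ℝ) ≤ Real.exp 1 := by
    have := Real.add_one_le_exp (1 : ℝ)
    linarith
  have h11 : Real.exp 3 = Real.exp 1 ^ 3 := by
    rw [← Real.exp_nat_mul]
    norm_num
  rw [h11]
  calc (8 : ℝ) = 2 ^ 3 := by norm_num
    _ ≤ Real.exp 1 ^ 3 := pow_le_pow_left₀ (by norm_num) h10 3

/-- Few systems have a large intersection. -/
theorem card_op {lam θ : ℝ} (hg : 2 ≤ g) (h1 : (p * g : ℝ) ≤ Real.exp lam)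
    (h2 : 2 * lam + 4 * u / g ^ 2 + 3 ≤ θ) :
    ((univ.filter (fun q : Om u p g × Om u p g => ∃ i j, θ < (op q.1 q.2 i j : ℝ))).card : ℝ) ≤
      (g : ℝ) ^ (u * p) * (g : ℝ) ^ (u * p) / 8 := by
  classical
  have hone : ∀ i j : Ix p g,
      ((univ.filter (fun q : Om u p g × Om u p g => θ < (op q.1 q.2 i j : ℝ))).card : ℝ) ≤
      (g : ℝ) ^ (u * p) * (g : ℝ) ^ (u * p) * Real.exp (4 * u / g ^ 2 - θ) := by
    intro i j
    set W := univ.filter (fun q : Om u p g × Om u p g => θ < (op q.1 q.2 i j : ℝ)) with hW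
    have h3 : (W.card : ℝ) * Real.exp θ ≤
        (g : ℝ) ^ (u * p) * (g : ℝ) ^ (u * p) * Real.exp (4 * u / g ^ 2) := by
      calc (W.card : ℝ) * Real.exp θ = ∑ _q ∈ W, Real.exp θ := by rw [sum_const, nsmul_eq_mul]
        _ ≤ ∑ q ∈ W, Real.exp (op q.1 q.2 i j : ℝ) := by
            refine sum_le_sum (fun q hq => ?_)
            exact Real.exp_le_exp.2 (mem_filter.1 hq).2.le
        _ ≤ ∑ q : Om u p g × Om u p g, Real.exp (op q.1 q.2 i j : ℝ) :=
            sum_le_sum_of_subset_of_nonneg (subset_univ _) (fun _ _ _ => (Real.exp_pos _).le)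
        _ = ∑ ω : Om u p g, ∑ ω' : Om u p g, Real.exp (op ω ω' i j : ℝ) := by
            rw [Fintype.sum_prod_type]
        _ ≤ _ := op_moment hg i j
    have h4 : Real.exp θ * Real.exp (-θ) = 1 := by
      rw [← Real.exp_add]
      simp
    calc (W.card : ℝ) = (W.card : ℝ) * Real.exp θ * Real.exp (-θ) := by
          rw [mul_assoc, h4, mul_one]
      _ ≤ (g : ℝ) ^ (u * p) * (g : ℝ) ^ (u * p) * Real.exp (4 * u / g ^ 2) * Real.exp (-θ) :=
          mul_le_mul_of_nonneg_right h3 (Real.exp_pos _).le
      _ = _ := by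
          rw [mul_assoc, ← Real.exp_add, sub_eq_add_neg]
  have hsub : univ.filter (fun q : Om u p g × Om u p g => ∃ i j, θ < (op q.1 q.2 i j : ℝ)) ⊆
      (univ : Finset (Ix p g × Ix p g)).biUnion (fun ij =>
        univ.filter (fun q : Om u p g × Om u p g => θ < (op q.1 q.2 ij.1 ij.2 : ℝ))) := by
    intro q hq
    rw [mem_filter] at hq
    obtain ⟨_, i, j, hij⟩ := hq
    rw [mem_biUnion]
    exact ⟨(i, j), mem_univ _, mem_filter.2 ⟨mem_univ _, hij⟩⟩
  calc ((univ.filter (fun q : Om u p g × Om u p g => ∃ i j, θ < (op q.1 q.2 i j : ℝ))).card : ℝ)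
      ≤ ∑ ij : Ix p g × Ix p g, ((univ.filter (fun q : Om u p g × Om u p g =>
          θ < (op q.1 q.2 ij.1 ij.2 : ℝ))).card : ℝ) := by
        rw [← Nat.cast_sum]
        exact Nat.cast_le.2 (le_trans (card_le_card hsub) card_biUnion_le)
    _ ≤ ∑ _ij : Ix p g × Ix p g,
          (g : ℝ) ^ (u * p) * (g : ℝ) ^ (u * p) * Real.exp (4 * u / g ^ 2 - θ) :=
        sum_le_sum (fun ij _ => hone ij.1 ij.2)
    _ = (g : ℝ) ^ (u * p) * (g : ℝ) ^ (u * p) * ((p * g) * (p * g) *
          Real.exp (4 * u / g ^ 2 - θ)) := by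
        rw [sum_const, card_univ, nsmul_eq_mul, Fintype.card_prod, Fintype.card_prod,
          Fintype.card_fin, Fintype.card_fin]
        push_cast
        ring
    _ ≤ (g : ℝ) ^ (u * p) * (g : ℝ) ^ (u * p) * (Real.exp lam * Real.exp lam *
          Real.exp (4 * u / g ^ 2 - θ)) := by
        apply mul_le_mul_of_nonneg_left _ (by positivity)
        apply mul_le_mul_of_nonneg_right _ (Real.exp_pos _).le
        exact mul_le_mul h1 h1 (by positivity) (Real.exp_pos _).le
    _ ≤ (g : ℝ) ^ (u * p) * (g : ℝ) ^ (u * p) * (1 / 8) := by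
        apply mul_le_mul_of_nonneg_left _ (by positivity)
        refine le_trans ?_ exp_neg_three
        rw [← Real.exp_add, ← Real.exp_add]
        exact Real.exp_le_exp.2 (by linarith)
    _ = _ := by ring

end Pool.Agent.SetIntOneSided
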