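import Mathlib

/-!
# A bounded difference inequality on `A ^ K`, in counting form
-/

namespace Pool.Agent.SetIntOneSided

open Finset

theorem exp_le_add_exp_sq (y : ℝ) : Real.exp y ≤ y + Real.exp (y ^ 2) := by
  rcases le_or_gt |y| 1 with h | h
  · have h1 := Real.abs_exp_sub_one_sub_id_le h
    have h2 := (abs_le.1 h1).2
    have h3 := Real.add_one_le_exp (y ^ 2)
    linarith
  · rcases lt_abs.1 h with h | h
    · have h1 : y ≤ y ^ 2 := by nlinarith
      have := Real.exp_le_exp.2 h1
      linarith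
    · have h1 : Real.exp y ≤ 1 := by
        rw [← Real.exp_zero]
        exact Real.exp_le_exp.2 (by linarith)
      have h3 := Real.add_one_le_exp (y ^ 2)
      nlinarith

theorem one_var {A : Type*} [Fintype A] [Nonempty A] (h : A → ℝ) (c s m : ℝ)
    (hm : ∑ a, h a = Fintype.card A * m) (hc : ∀ a b, |h a - h b| ≤ c) :
    ∑ a, Real.exp (s * h a) ≤ Fintype.card A * Real.exp (s * m + s ^ 2 * c ^ 2) := by
  have hA : (0 : ℝ) < Fintype.card A := by exact_mod_cast Fintype.card_pos
  have hdev : ∀ a, |h a - m| ≤ c := by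
    intro a
    have h1 : (Fintype.card A : ℝ) * (h a - m) = ∑ b, (h a - h b) := by
      rw [sum_sub_distrib, hm, sum_const, card_univ, nsmul_eq_mul]
      ring
    have h2 : (Fintype.card A : ℝ) * |h a - m| ≤ Fintype.card A * c := by
      rw [← abs_of_pos hA, ← abs_mul, abs_of_pos hA, h1]
      calc |∑ b, (h a - h b)| ≤ ∑ b, |h a - h b| := abs_sum_le_sum_abs _ _
        _ ≤ ∑ _b : A, c := sum_le_sum (fun b _ => hc a b)
        _ = Fintype.card A * c := by rw [sum_const, card_univ, nsmul_eq_mul]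
    exact le_of_mul_le_mul_left h2 hA
  have key : ∀ a, Real.exp (s * h a) ≤
      Real.exp (s * m) * (s * (h a - m) + Real.exp (s ^ 2 * c ^ 2)) := by
    intro a
    have h1 : s * h a = s * m + s * (h a - m) := by ring
    rw [h1, Real.exp_add]
    apply mul_le_mul_of_nonneg_left _ (Real.exp_pos _).le
    refine le_trans (exp_le_add_exp_sq _) ?_
    have h2 : (s * (h a - m)) ^ 2 ≤ s ^ 2 * c ^ 2 := by
      rw [mul_pow]
      apply mul_le_mul_of_nonneg_left _ (sq_nonneg s)
      exact sq_le_sq' (by have := (abs_le.1 (hdev a)).1; linarith) (abs_le.1 (hdev a)).2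
    have := Real.exp_le_exp.2 h2
    linarith
  calc ∑ a, Real.exp (s * h a)
      ≤ ∑ a, Real.exp (s * m) * (s * (h a - m) + Real.exp (s ^ 2 * c ^ 2)) :=
        sum_le_sum (fun a _ => key a)
    _ = Fintype.card A * Real.exp (s * m + s ^ 2 * c ^ 2) := by
        rw [← mul_sum, sum_add_distrib, ← mul_sum, sum_sub_distrib, hm, sum_const, sum_const,
          card_univ, nsmul_eq_mul, nsmul_eq_mul, Real.exp_add]
        ring

theorem mgf {A : Type*} [Fintype A] [Nonempty A] (c s : ℝ) :
    ∀ (n : ℕ) (f : (Fin n → A) → ℝ) (m : ℝ),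
      (∑ ω, f ω = (Fintype.card A : ℝ) ^ n * m) →
      (∀ ω k a, |f (Function.update ω k a) - f ω| ≤ c) →
      ∑ ω, Real.exp (s * f ω) ≤
        (Fintype.card A : ℝ) ^ n * Real.exp (s * m + n * (s ^ 2 * c ^ 2)) := by
  have hA : (0 : ℝ) < Fintype.card A := by exact_mod_cast Fintype.card_pos
  intro n
  induction n with
  | zero =>
    intro f m hm hf
    rw [Fintype.sum_unique] at hm ⊢
    simp only [pow_zero, one_mul, Nat.cast_zero, zero_mul, add_zero] at hm ⊢
    rw [hm]
  | succ n ih =>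
    intro f m hm hf
    have hsum : ∀ φ : (Fin (n + 1) → A) → ℝ,
        ∑ ω, φ ω = ∑ a, ∑ ω' : Fin n → A, φ (Fin.cons a ω') := by
      intro φ
      rw [← Fintype.sum_prod_type']
      exact (Fintype.sum_equiv (Fin.consEquiv (fun _ => A)) _ _ (fun x => rfl)).symm
    have hpow : (0 : ℝ) < (Fintype.card A : ℝ) ^ n := by positivity
    let h : A → ℝ := fun a => (∑ ω' : Fin n → A, f (Fin.cons a ω')) / (Fintype.card A : ℝ) ^ n
    have hh : ∀ a, ∑ ω' : Fin n → A, f (Fin.cons a ω') = (Fintype.card A : ℝ) ^ n * h a := by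
      intro a
      simp only [h]
      field_simp
    have h1 : ∑ a, h a = Fintype.card A * m := by
      have h2 : (Fintype.card A : ℝ) ^ n * ∑ a, h a = (Fintype.card A : ℝ) ^ n * (Fintype.card A * m) := by
        rw [mul_sum, ← mul_assoc, ← pow_succ, ← hm, hsum]
        exact sum_congr rfl (fun a _ => (hh a).symm)
      exact mul_left_cancel₀ hpow.ne' h2
    have h2 : ∀ a b, |h a - h b| ≤ c := by
      intro a b
      have h3 : (Fintype.card A : ℝ) ^ n * |h a - h b| ≤ (Fintype.card A : ℝ) ^ n * c := by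
        rw [← abs_of_pos hpow, ← abs_mul, abs_of_pos hpow, mul_sub, ← hh, ← hh, ← sum_sub_distrib]
        calc |∑ ω' : Fin n → A, (f (Fin.cons a ω') - f (Fin.cons b ω'))|
            ≤ ∑ ω' : Fin n → A, |f (Fin.cons a ω') - f (Fin.cons b ω')| :=
              abs_sum_le_sum_abs _ _
          _ ≤ ∑ _ω' : Fin n → A, c := by
              refine sum_le_sum (fun ω' _ => ?_)
              have := hf (Fin.cons b ω') 0 a
              rwa [Fin.update_cons_zero] at this
          _ = (Fintype.card A : ℝ) ^ n * c := by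
              rw [sum_const, card_univ, Fintype.card_fun, Fintype.card_fin, nsmul_eq_mul]
              push_cast
              ring
      exact le_of_mul_le_mul_left h3 hpow
    have h3 : ∀ a, ∑ ω' : Fin n → A, Real.exp (s * f (Fin.cons a ω')) ≤
        (Fintype.card A : ℝ) ^ n * Real.exp (s * h a + n * (s ^ 2 * c ^ 2)) := by
      intro a
      refine ih (fun ω' => f (Fin.cons a ω')) (h a) (hh a) (fun ω' k b => ?_)
      have := hf (Fin.cons a ω') k.succ b
      rwa [← Fin.cons_update] at this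
    rw [hsum (fun ω => Real.exp (s * f ω))]
    calc ∑ a, ∑ ω' : Fin n → A, Real.exp (s * f (Fin.cons a ω'))
        ≤ ∑ a, (Fintype.card A : ℝ) ^ n * Real.exp (s * h a + n * (s ^ 2 * c ^ 2)) :=
          sum_le_sum (fun a _ => h3 a)
      _ = (Fintype.card A : ℝ) ^ n * Real.exp (n * (s ^ 2 * c ^ 2)) * ∑ a, Real.exp (s * h a) := by
          rw [mul_sum]
          refine sum_congr rfl (fun a _ => ?_)
          rw [Real.exp_add]
          ring
      _ ≤ (Fintype.card A : ℝ) ^ n * Real.exp (n * (s ^ 2 * c ^ 2)) *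
            (Fintype.card A * Real.exp (s * m + s ^ 2 * c ^ 2)) := by
          apply mul_le_mul_of_nonneg_left _ (by positivity)
          exact one_var h c s m h1 h2
      _ = (Fintype.card A : ℝ) ^ (n + 1) * Real.exp (s * m + (n + 1 : ℕ) * (s ^ 2 * c ^ 2)) := by
          have : s * m + ((n + 1 : ℕ) : ℝ) * (s ^ 2 * c ^ 2)
              = n * (s ^ 2 * c ^ 2) + (s * m + s ^ 2 * c ^ 2) := by
            push_cast
            ring
          rw [this, Real.exp_add (n * (s ^ 2 * c ^ 2))]
          ring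

theorem mgf' {K A : Type*} [Fintype K] [DecidableEq K] [Fintype A] [Nonempty A] (c s m : ℝ)
    (f : (K → A) → ℝ) (hm : ∑ ω, f ω = (Fintype.card A : ℝ) ^ (Fintype.card K) * m)
    (hf : ∀ ω k a, |f (Function.update ω k a) - f ω| ≤ c) :
    ∑ ω, Real.exp (s * f ω) ≤
      (Fintype.card A : ℝ) ^ (Fintype.card K) *
        Real.exp (s * m + Fintype.card K * (s ^ 2 * c ^ 2)) := by
  classical
  let e := Fintype.equivFin K
  let E : (Fin (Fintype.card K) → A) ≃ (K → A) := e.symm.arrowCongr (Equiv.refl A)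
  have hE : ∀ ω', E ω' = fun k => ω' (e k) := by
    intro ω'
    rfl
  have hs : ∀ φ : (K → A) → ℝ, ∑ ω, φ ω = ∑ ω', φ (E ω') :=
    fun φ => (Equiv.sum_comp E φ).symm
  rw [hs] at hm ⊢
  refine mgf c s (Fintype.card K) (fun ω' => f (E ω')) m hm (fun ω' k a => ?_)
  have h1 : E (Function.update ω' k a) = Function.update (E ω') (e.symm k) a := by
    rw [hE, hE]
    funext x
    by_cases hx : x = e.symm k
    · subst hx
      simp
    · have : e x ≠ k := fun h => hx (by rw [← h]; simp)
      simp [hx, this]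
  rw [h1]
  exact hf _ _ _

/-- The tail bound in counting form. -/
theorem tail {K A : Type*} [Fintype K] [DecidableEq K] [Fintype A] [Nonempty A] (c m t : ℝ)
    (f : (K → A) → ℝ) (hc : 0 < c) (ht : 0 ≤ t) (hK : 0 < Fintype.card K)
    (hm : ∑ ω, f ω ≤ (Fintype.card A : ℝ) ^ (Fintype.card K) * m)
    (hf : ∀ ω k a, |f (Function.update ω k a) - f ω| ≤ c) :
    ((univ.filter (fun ω => m + t ≤ f ω)).card : ℝ) ≤
      (Fintype.card A : ℝ) ^ (Fintype.card K) *
        Real.exp (-(t ^ 2 / (4 * Fintype.card K * c ^ 2))) := by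
  have hA : (0 : ℝ) < Fintype.card A := by exact_mod_cast Fintype.card_pos
  have hn : (0 : ℝ) < Fintype.card K := by exact_mod_cast hK
  set n : ℝ := (Fintype.card K : ℝ) with hndef
  have hpow : (0 : ℝ) < (Fintype.card A : ℝ) ^ (Fintype.card K) := by positivity
  obtain ⟨m', hm'⟩ : ∃ m', ∑ ω, f ω = (Fintype.card A : ℝ) ^ (Fintype.card K) * m' :=
    ⟨(∑ ω, f ω) / (Fintype.card A : ℝ) ^ (Fintype.card K), by field_simp⟩
  have hmm : m' ≤ m := by
    rw [hm'] at hm
    exact le_of_mul_le_mul_left hm hpow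
  set s : ℝ := t / (2 * n * c ^ 2) with hs
  have hs0 : 0 ≤ s := by positivity
  have h1 := mgf' c s m' f hm' hf
  have h2 : ((univ.filter (fun ω => m + t ≤ f ω)).card : ℝ) * Real.exp (s * (m + t)) ≤
      ∑ ω, Real.exp (s * f ω) := by
    calc ((univ.filter (fun ω => m + t ≤ f ω)).card : ℝ) * Real.exp (s * (m + t))
        = ∑ _ω ∈ univ.filter (fun ω => m + t ≤ f ω), Real.exp (s * (m + t)) := by
          rw [sum_const, nsmul_eq_mul]
      _ ≤ ∑ ω ∈ univ.filter (fun ω => m + t ≤ f ω), Real.exp (s * f ω) := by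
          refine sum_le_sum (fun ω hω => ?_)
          apply Real.exp_le_exp.2
          exact mul_le_mul_of_nonneg_left (mem_filter.1 hω).2 hs0
      _ ≤ ∑ ω, Real.exp (s * f ω) :=
          sum_le_sum_of_subset_of_nonneg (subset_univ _) (fun _ _ _ => (Real.exp_pos _).le)
  have h3 : ((univ.filter (fun ω => m + t ≤ f ω)).card : ℝ) ≤
      (Fintype.card A : ℝ) ^ (Fintype.card K) *
        Real.exp (s * m' + n * (s ^ 2 * c ^ 2)) * Real.exp (-(s * (m + t))) := by
    have h4 : Real.exp (s * (m + t)) * Real.exp (-(s * (m + t))) = 1 := by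
      rw [← Real.exp_add]
      simp
    calc ((univ.filter (fun ω => m + t ≤ f ω)).card : ℝ)
        = ((univ.filter (fun ω => m + t ≤ f ω)).card : ℝ) *
            (Real.exp (s * (m + t)) * Real.exp (-(s * (m + t)))) := by rw [h4, mul_one]
      _ = ((univ.filter (fun ω => m + t ≤ f ω)).card : ℝ) * Real.exp (s * (m + t)) *
            Real.exp (-(s * (m + t))) := by ring
      _ ≤ _ := by
          apply mul_le_mul_of_nonneg_right _ (Real.exp_pos _).le
          exact le_trans h2 h1
  refine le_trans h3 ?_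
  rw [mul_assoc, ← Real.exp_add]
  apply mul_le_mul_of_nonneg_left _ hpow.le
  apply Real.exp_le_exp.2
  have h5 : s * t - n * (s ^ 2 * c ^ 2) = t ^ 2 / (4 * n * c ^ 2) := by
    rw [hs]
    field_simp
    ring
  have h6 : s * m' ≤ s * m := mul_le_mul_of_nonneg_left hmm hs0
  nlinarith [h5, h6]

end Pool.Agent.SetIntOneSided
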